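import Mathlib
import Pool.Agent.H297R2.NoRel

/-!
# Cubes in several coordinates

A version for vectors of the theorem `Pool.Agent.H297R2.cube_free`.
-/

set_option autoImplicit false

namespace Pool.Agent.K3h28.NF

open Finset Module
open Pool.Agent.H297R2 (NoRel Ex DegLE LinePoly exists_hom cube_nonvanish noRel_iff
  totalDegree_sum_monomial_le)

theorem degLE_prod {V κ ι : Type*} [AddCommGroup V] [CommRing κ] (s : Finset ι) (d : ι → ℕ)
    (f : ι → V → κ) (hf : ∀ i ∈ s, DegLE (d i) (f i)) :
    DegLE (∑ i ∈ s, d i) (fun x => ∏ i ∈ s, f i x) := by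
  classical
  induction s using Finset.induction_on with
  | empty => simp only [Finset.sum_empty, Finset.prod_empty]; exact DegLE.const 0 1
  | insert a s ha ih =>
    rw [Finset.sum_insert ha]
    simp only [Finset.prod_insert ha]
    exact (hf a (Finset.mem_insert_self _ _)).mul (ih (fun i hi => hf i (Finset.mem_insert_of_mem hi)))

/-- The evaluation determinant in several coordinates. -/
noncomputable def evalDet {κ σ M : Type*} [Field κ] [Fintype σ] [Fintype M] (D : ℕ)
    (u : Ex (σ ⊕ M) D → σ → κ) (x : Ex (σ ⊕ M) D × M → κ) : κ := by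
  classical
  exact Matrix.det (Matrix.of fun (s : Ex (σ ⊕ M) D) (j : Ex (σ ⊕ M) D) =>
    (∏ c, x (j, c) ^ (s.1 (Sum.inr c))) * ∏ i, u j i ^ (s.1 (Sum.inl i)))

theorem sum_inr_le {σ M : Type*} [Fintype σ] [Fintype M] {D : ℕ} (s : Ex (σ ⊕ M) D) :
    ∑ c, s.1 (Sum.inr c) ≤ D := by
  refine le_trans ?_ s.2
  rw [Finsupp.degree_eq_sum, Fintype.sum_sum_type]
  omega

theorem evalDet_degLE {κ σ M : Type*} [Field κ] [Fintype σ] [Fintype M] (D : ℕ)
    (u : Ex (σ ⊕ M) D → σ → κ) :
    DegLE (Fintype.card (Ex (σ ⊕ M) D) * D) (evalDet D u) := by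
  classical
  have : evalDet D u = fun x => ∑ π : Equiv.Perm (Ex (σ ⊕ M) D),
      ((Equiv.Perm.sign π : ℤ) : κ) * ∏ j, ((∏ c, x (j, c) ^ ((π j).1 (Sum.inr c))) *
        ∏ i, u j i ^ ((π j).1 (Sum.inl i))) := by
    funext x
    unfold evalDet
    rw [Matrix.det_apply']
    rfl
  rw [this]
  apply DegLE.sum
  intro π _
  apply DegLE.const_mul
  have h := DegLE.prod (univ : Finset (Ex (σ ⊕ M) D)) D
    (fun j (x : Ex (σ ⊕ M) D × M → κ) => (∏ c, x (j, c) ^ ((π j).1 (Sum.inr c))) *
        ∏ i, u j i ^ ((π j).1 (Sum.inl i))) (by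
      intro j _
      have h1 : DegLE (∑ c, (π j).1 (Sum.inr c))
          (fun x : Ex (σ ⊕ M) D × M → κ => ∏ c, x (j, c) ^ ((π j).1 (Sum.inr c))) :=
        degLE_prod _ _ _ (fun c _ => (DegLE.coord (j, c)).pow _)
      have h3 := (h1.const_mul (∏ i, u j i ^ ((π j).1 (Sum.inl i)))).mono (sum_inr_le (π j))
      convert h3 using 2
      ring)
  rw [Finset.card_univ] at h
  exact h

theorem evalDet_linePoly {κ σ M : Type*} [Field κ] [Fintype σ] [Fintype M] (D : ℕ)
    (u : Ex (σ ⊕ M) D → σ → κ) : LinePoly (evalDet D u) := by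
  classical
  have : evalDet D u = fun x => ∑ π : Equiv.Perm (Ex (σ ⊕ M) D),
      ((Equiv.Perm.sign π : ℤ) : κ) * ∏ j, ((∏ c, x (j, c) ^ ((π j).1 (Sum.inr c))) *
        ∏ i, u j i ^ ((π j).1 (Sum.inl i))) := by
    funext x
    unfold evalDet
    rw [Matrix.det_apply']
    rfl
  rw [this]
  apply LinePoly.sum
  intro π _
  apply LinePoly.mul (LinePoly.const _)
  apply LinePoly.prod
  intro j _
  exact (LinePoly.prod _ _ (fun c _ => (LinePoly.coord (j, c)).pow _)).mul (LinePoly.const _)

/-- If `t` has no relation of degree `≤ D`, the monomials `t^a X^b` are linearly independent. -/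
theorem monomials_indep {κ A σ M : Type*} [Field κ] [CommRing A] [Algebra κ A] [Fintype σ]
    [Fintype M] (D : ℕ) (t : σ → A) (ht : NoRel κ D t) (c : Ex (σ ⊕ M) D → κ)
    (hc : ∑ s, c s • ((∏ m, (MvPolynomial.X m : MvPolynomial M A) ^ (s.1 (Sum.inr m))) *
      ∏ i, (MvPolynomial.C (t i)) ^ (s.1 (Sum.inl i))) = 0) :
    ∀ s, c s = 0 := by
  classical
  intro s₀
  -- the two parts of an exponent
  set pl : (σ ⊕ M →₀ ℕ) → (σ →₀ ℕ) := fun s => Finsupp.equivFunOnFinite.symm (fun i => s (Sum.inl i))
    with hpl
  set pr : (σ ⊕ M →₀ ℕ) → (M →₀ ℕ) := fun s => Finsupp.equivFunOnFinite.symm (fun i => s (Sum.inr i))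
    with hpr
  have hext : ∀ s s' : σ ⊕ M →₀ ℕ, pl s = pl s' → pr s = pr s' → s = s' := by
    intro s s' h1 h2
    ext o
    rcases o with i | i
    · exact DFunLike.congr_fun h1 i
    · exact DFunLike.congr_fun h2 i
  have hdeg : ∀ s : Ex (σ ⊕ M) D, (pl s.1).degree ≤ D := by
    intro s
    refine le_trans ?_ s.2
    rw [Finsupp.degree_eq_sum, Finsupp.degree_eq_sum, Fintype.sum_sum_type]
    simp only [hpl, Finsupp.equivFunOnFinite_symm_apply_apply]
    omega
  have h1 : ∑ s ∈ univ.filter (fun s : Ex (σ ⊕ M) D => pr s.1 = pr s₀.1),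
      MvPolynomial.monomial (pl s.1) (c s) = 0 := by
    apply ht
    · exact totalDegree_sum_monomial_le D _ _ (fun s _ => hdeg s) c
    · have h2 := congrArg (fun p => MvPolynomial.coeff (pr s₀.1) p) hc
      simp only [MvPolynomial.coeff_sum, MvPolynomial.coeff_zero] at h2
      rw [map_sum, Finset.sum_filter]
      refine Eq.trans ?_ h2
      apply Finset.sum_congr rfl
      intro s _
      rw [MvPolynomial.aeval_monomial, Finsupp.prod_fintype _ _ (by simp)]
      have h5 : (∏ i, (MvPolynomial.C (t i) : MvPolynomial M A) ^ (s.1 (Sum.inl i))) =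
          MvPolynomial.C (∏ i, t i ^ (s.1 (Sum.inl i))) := by
        simp only [map_prod, map_pow]
      have h6 : (∏ m, (MvPolynomial.X m : MvPolynomial M A) ^ (s.1 (Sum.inr m))) =
          MvPolynomial.monomial (pr s.1) 1 := by
        rw [MvPolynomial.monomial_eq, Finsupp.prod_fintype _ _ (by simp), map_one, one_mul]
        rfl
      rw [h5, h6, mul_comm (MvPolynomial.monomial _ _), MvPolynomial.C_mul_monomial, mul_one,
        MvPolynomial.coeff_smul, MvPolynomial.coeff_monomial, Algebra.smul_def]
      by_cases h7 : pr s.1 = pr s₀.1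
      · rw [if_pos h7, if_pos h7]
        rfl
      · rw [if_neg h7, if_neg h7, mul_zero]
  have h3 := congrArg (MvPolynomial.coeff (pl s₀.1)) h1
  rw [MvPolynomial.coeff_sum, MvPolynomial.coeff_zero, Finset.sum_eq_single s₀] at h3
  · simpa using h3
  · intro s hs hne
    rw [MvPolynomial.coeff_monomial, if_neg]
    intro h4
    rw [Finset.mem_filter] at hs
    apply hne
    apply Subtype.ext
    exact hext _ _ h4 hs.2
  · intro h4
    exact absurd (by simp) h4

/-- Selection of rows. -/
theorem select {κ C B M : Type*} [Field κ] [Field C] [Algebra κ C] [Fintype M] [DecidableEq M]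
    (V : Submodule κ (B → κ)) (F : (B → κ) →ₗ[κ] (M → C))
    (h : ∀ α : M → C, (∀ T ∈ V, ∑ c, α c * F T c = 0) → α = 0) :
    ∃ T : M → (B → κ), (∀ c, T c ∈ V) ∧ (Matrix.of fun c' c => F (T c') c).det ≠ 0 := by
  classical
  set S : Set (M → C) := F '' (V : Set (B → κ)) with hS
  have hspan : Submodule.span C S = ⊤ := by
    by_contra hne
    obtain ⟨f, hf0, hf⟩ := Submodule.exists_le_ker_of_lt_top _ (lt_top_iff_ne_top.2 hne)
    apply hf0
    have hfx : ∀ x : M → C, f x = ∑ c, f (Pi.single c 1) * x c := by
      intro x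
      have h1 : x = ∑ c, x c • (Pi.single c (1 : C) : M → C) := by
        funext c
        rw [Finset.sum_apply]
        simp [Pi.single_apply]
      conv_lhs => rw [h1]
      rw [map_sum]
      apply Finset.sum_congr rfl
      intro c _
      rw [map_smul, smul_eq_mul, mul_comm]
    have h2 := h (fun c => f (Pi.single c 1)) (by
      intro T hT
      rw [← hfx]
      exact hf (Submodule.subset_span ⟨T, hT, rfl⟩))
    apply LinearMap.ext
    intro x
    rw [hfx, LinearMap.zero_apply]
    apply Finset.sum_eq_zero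
    intro c _
    have := congrFun h2 c
    simp only [Pi.zero_apply] at this
    rw [this, zero_mul]
  obtain ⟨b, hbS, hbspan, hbli⟩ := exists_linearIndependent C S
  have hbt : ⊤ ≤ Submodule.span C (Set.range (Subtype.val : b → (M → C))) := by
    rw [Subtype.range_coe, hbspan, hspan]
  let bas := Basis.mk hbli hbt
  have e : M ≃ b := (Pi.basisFun C M).indexEquiv bas
  have hch : ∀ c : M, ∃ T : B → κ, T ∈ V ∧ F T = ((e c : b) : M → C) := by
    intro c
    obtain ⟨T, hT, hT2⟩ := hbS (e c).2
    exact ⟨T, hT, hT2⟩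
  choose T hT hT2 using hch
  refine ⟨T, hT, ?_⟩
  have h3 : LinearIndependent C (Matrix.of fun c' c => F (T c') c).row := by
    have h4 : (Matrix.of fun c' c => F (T c') c).row = (Subtype.val : b → (M → C)) ∘ e := by
      funext c'
      funext c
      simp [Matrix.row, hT2]
    rw [h4]
    exact hbli.comp _ e.injective
  rw [Matrix.linearIndependent_rows_iff_isUnit] at h3
  exact ((Matrix.isUnit_iff_isUnit_det _).1 h3).ne_zero

/-- `w` is a family of vectors with `M` coordinates such that no vector `α ≠ 0` is orthogonal to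
more than an `h`-dimensional space of combinations with coefficients in `κ`. -/
def Wide (κ : Type*) {C B M : Type*} [Field κ] [Field C] [Algebra κ C] [Fintype B] [Fintype M]
    (h : ℕ) (w : B → M → C) : Prop :=
  ∀ V : Submodule κ (B → κ), h < finrank κ V → ∀ α : M → C,
    (∀ T ∈ V, ∑ c, α c * ∑ i, T i • w i c = 0) → α = 0

/-- The annihilator of a small subspace is large. -/
theorem exists_annihilator {κ B : Type*} [Field κ] [Fintype B] (R : Submodule κ (B → κ)) (h : ℕ)
    (hR : finrank κ R + h < Fintype.card B) :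
    ∃ V : Submodule κ (B → κ), h < finrank κ V ∧ ∀ T ∈ V, ∀ ρ ∈ R, ∑ i, T i * ρ i = 0 := by
  classical
  let b := Module.finBasis κ R
  let f : (B → κ) →ₗ[κ] (Fin (finrank κ R) → κ) :=
    { toFun := fun T l => ∑ i, T i * (b l : B → κ) i
      map_add' := by
        intro T T'
        funext l
        simp only [Pi.add_apply, add_mul, Finset.sum_add_distrib]
      map_smul' := by
        intro a T
        funext l
        simp only [Pi.smul_apply, smul_eq_mul, RingHom.id_apply, Finset.mul_sum, mul_assoc] }
  refine ⟨LinearMap.ker f, ?_, ?_⟩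
  · have h1 := LinearMap.finrank_range_add_finrank_ker f
    rw [Module.finrank_fintype_fun_eq_card] at h1
    have h2 : finrank κ (LinearMap.range f) ≤ finrank κ R := by
      refine (Submodule.finrank_le _).trans ?_
      rw [Module.finrank_fintype_fun_eq_card, Fintype.card_fin]
    omega
  · intro T hT ρ hρ
    rw [LinearMap.mem_ker] at hT
    have h1 : ∀ l, ∑ i, T i * (b l : B → κ) i = 0 := fun l => congrFun hT l
    have h2 : ρ = ∑ l, b.repr ⟨ρ, hρ⟩ l • (b l : B → κ) := by
      have h3 := b.sum_repr ⟨ρ, hρ⟩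
      have h4 := congrArg (fun z : R => (z : B → κ)) h3
      simp only [Submodule.coe_sum, Submodule.coe_smul] at h4
      exact h4.symm
    rw [h2]
    have h5 : ∀ i, T i * (∑ l, b.repr ⟨ρ, hρ⟩ l • (b l : B → κ)) i =
        ∑ l, b.repr ⟨ρ, hρ⟩ l * (T i * (b l : B → κ) i) := by
      intro i
      rw [Finset.sum_apply, Finset.mul_sum]
      apply Finset.sum_congr rfl
      intro l _
      rw [Pi.smul_apply, smul_eq_mul]
      ring
    simp only [h5]
    rw [Finset.sum_comm]
    apply Finset.sum_eq_zero
    intro l _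
    rw [← Finset.mul_sum, h1, mul_zero]

/-- Simultaneous choice of rational points. -/
theorem exists_points (κ : Type*) [Field κ] [IsAlgClosed κ] {C : Type*} [Field C] [Algebra κ C]
    (A : Subalgebra κ C) (P : Type*) [CommRing P] [IsDomain P] [Algebra κ P]
    [Algebra.FiniteType κ P] (ι : A →ₐ[κ] P) (hι : Function.Injective ι)
    {G B M : Type*} [Fintype G] [Fintype B] [Fintype M] (h : ℕ) (w : G → B → M → A)
    (hw : ∀ g, Wide κ h (fun i c => (w g i c : C))) (N : ℕ) :
    ∀ (W : Submodule κ P) [Module.Finite κ W], finrank κ W ≤ N →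
    ∀ (R : G → Submodule κ (B → κ)), (∀ g, finrank κ (R g) + (Fintype.card M * N + h) < Fintype.card B) →
    ∃ φ : Fin N → (P →ₐ[κ] κ), (∀ x ∈ W, (∀ j, φ j x = 0) → x = 0) ∧
      ∀ g, ∀ a : Fin N → M → κ, (fun i => ∑ j, ∑ c, a j c * φ j (ι (w g i c))) ∈ R g → a = 0 := by
  classical
  induction N with
  | zero =>
    intro W _ hW R _
    refine ⟨Fin.elim0, fun x hx _ => ?_, fun g a _ => ?_⟩
    · have h1 : W = ⊥ := Submodule.finrank_eq_zero.1 (Nat.le_zero.1 hW)
      rw [h1] at hx
      exact hx
    · funext j; exact j.elim0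
  | succ N ih =>
    intro W _ hW R hR
    -- the nonzero element of `W`
    have hch : ∃ x : P, x ≠ 0 ∧ (W ≠ ⊥ → x ∈ W) := by
      by_cases h : W = ⊥
      · exact ⟨1, one_ne_zero, fun h' => absurd h h'⟩
      · obtain ⟨x, hx, hx0⟩ := (Submodule.ne_bot_iff _).1 h
        exact ⟨x, hx0, fun _ => hx⟩
    obtain ⟨x, hx0, hxm⟩ := hch
    -- the minors
    have hmin : ∀ g, ∃ T : M → (B → κ), (∀ c, ∀ ρ ∈ R g, ∑ i, T c i * ρ i = 0) ∧
        (Matrix.of fun c' c => ∑ i, T c' i • w g i c : Matrix M M A).det ≠ 0 := by
      intro g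
      obtain ⟨V, hV1, hV2⟩ := exists_annihilator (R g) h (by
        have := hR g
        omega)
      let F : (B → κ) →ₗ[κ] (M → C) :=
        { toFun := fun T c => ∑ i, T i • (w g i c : C)
          map_add' := by
            intro T T'
            funext c
            simp only [Pi.add_apply, add_smul, Finset.sum_add_distrib]
          map_smul' := by
            intro a T
            funext c
            simp only [Pi.smul_apply, smul_assoc, RingHom.id_apply, Finset.smul_sum] }
      obtain ⟨T, hT1, hT2⟩ := select V F (by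
        intro α hα
        exact hw g V hV1 α hα)
      refine ⟨T, fun c ρ hρ => hV2 _ (hT1 c) ρ hρ, ?_⟩
      intro h0
      apply hT2
      have h3 : (Matrix.of fun c' c => F (T c') c) =
          (Matrix.of fun c' c => ∑ i, T c' i • w g i c : Matrix M M A).map (A.val : A →+* C) := by
        ext c' c
        simp [F]
      rw [h3]
      have h4 : ((Matrix.of fun c' c => ∑ i, T c' i • w g i c : Matrix M M A).map
          (A.val : A →+* C)).det = (A.val : A →+* C) ((Matrix.of fun c' c => ∑ i, T c' i • w g i c :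
            Matrix M M A).det) := ((A.val : A →+* C).map_det _).symm
      rw [h4, h0, map_zero]
    choose T hT1 hT2 using hmin
    obtain ⟨φ₀, hφ₀⟩ := exists_hom κ P (x * ∏ g, ι (Matrix.of fun c' c => ∑ i, T g c' i • w g i c :
        Matrix M M A).det) (by
      apply mul_ne_zero hx0
      rw [Finset.prod_ne_zero_iff]
      intro g _ h0
      exact hT2 g (hι (by rw [h0, map_zero])))
    rw [map_mul, map_prod] at hφ₀
    have hφ₀x : φ₀ x ≠ 0 := left_ne_zero_of_mul hφ₀
    have hφ₀g : ∀ g, φ₀ (ι (Matrix.of fun c' c => ∑ i, T g c' i • w g i c : Matrix M M A).det) ≠ 0 :=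
      fun g => Finset.prod_ne_zero_iff.1 (right_ne_zero_of_mul hφ₀) g (Finset.mem_univ g)
    -- new data
    set W' : Submodule κ P := W ⊓ LinearMap.ker φ₀.toLinearMap with hW'
    have hfin : Module.Finite κ W' := Submodule.finiteDimensional_inf_left _ _
    have hrank : finrank κ W' ≤ N := by
      by_cases h : W = ⊥
      · have : W' = ⊥ := by rw [hW']; simp [h]
        rw [this, finrank_bot]
        exact Nat.zero_le _
      · have hlt : W' < W := by
          refine lt_of_le_of_ne inf_le_left ?_
          intro heq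
          have h1 : x ∈ W' := by rw [heq]; exact hxm h
          rw [hW', Submodule.mem_inf] at h1
          exact hφ₀x h1.2
        have h2 := Submodule.finrank_lt_finrank_of_lt hlt
        omega
    set ρ : G → M → (B → κ) := fun g c i => φ₀ (ι (w g i c)) with hρ
    set R' : G → Submodule κ (B → κ) := fun g => R g ⊔ Submodule.span κ (Set.range (ρ g)) with hR'
    have hR'rank : ∀ g, finrank κ (R' g) + (Fintype.card M * N + h) < Fintype.card B := by
      intro g
      have h1 : finrank κ (R' g) ≤ finrank κ (R g) + Fintype.card M := by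
        refine (Submodule.finrank_add_le_finrank_add_finrank _ _).trans ?_
        have := finrank_range_le_card (R := κ) (ρ g)
        rw [Set.finrank] at this
        omega
      have h2 := hR g
      rw [Nat.mul_succ] at h2
      omega
    obtain ⟨φ, hφ1, hφ2⟩ := ih W' hrank R' hR'rank
    refine ⟨Fin.cons φ₀ φ, ?_, ?_⟩
    · intro v hv hvan
      apply hφ1 v
      · rw [hW', Submodule.mem_inf]
        refine ⟨hv, ?_⟩
        have := hvan 0
        simpa using this
      · intro j
        have := hvan j.succ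
        simpa using this
    · intro g a ha
      have hsplit : (fun i => ∑ j, ∑ c, a j c * (Fin.cons φ₀ φ : Fin (N + 1) → (P →ₐ[κ] κ)) j
          (ι (w g i c))) = (∑ c, a 0 c • ρ g c) +
          (fun i => ∑ j, ∑ c, a (Fin.succ j) c * φ j (ι (w g i c))) := by
        funext i
        rw [Fin.sum_univ_succ, Pi.add_apply, Finset.sum_apply]
        simp only [Fin.cons_zero, Fin.cons_succ, Pi.smul_apply, smul_eq_mul, hρ]
      rw [hsplit] at ha
      have hmem0 : (∑ c, a 0 c • ρ g c) ∈ R' g := by
        apply Submodule.mem_sup_right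
        apply Submodule.sum_mem
        intro c _
        exact Submodule.smul_mem _ _ (Submodule.subset_span ⟨c, rfl⟩)
      have hsucc : (fun j => a (Fin.succ j)) = 0 := by
        apply hφ2 g
        have h1 := (R' g).sub_mem (Submodule.mem_sup_left ha) hmem0
        rwa [add_sub_cancel_left] at h1
      have hz : (fun i => ∑ j : Fin N, ∑ c, a (Fin.succ j) c * φ j (ι (w g i c))) = 0 := by
        funext i
        rw [Pi.zero_apply]
        apply Finset.sum_eq_zero
        intro j _
        apply Finset.sum_eq_zero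
        intro c _
        have := congrFun (congrFun hsucc j) c
        simp only [Pi.zero_apply] at this
        rw [this, zero_mul]
      rw [hz, add_zero] at ha
      have h0 : a 0 = 0 := by
        have h1 : ∀ c', ∑ c, φ₀ (ι (∑ i, T g c' i • w g i c)) * a 0 c = 0 := by
          intro c'
          have h2 := hT1 g c' _ ha
          rw [← h2]
          simp only [Finset.sum_apply, Pi.smul_apply, smul_eq_mul, hρ, map_sum, map_smul,
            Finset.mul_sum, Finset.sum_mul]
          rw [Finset.sum_comm]
          apply Finset.sum_congr rfl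
          intro i _
          apply Finset.sum_congr rfl
          intro c _
          ring
        have h3 : ((Matrix.of fun c' c => ∑ i, T g c' i • w g i c : Matrix M M A).map
            (fun z => φ₀ (ι z))).mulVec (a 0) = 0 := by
          funext c'
          rw [Matrix.mulVec, dotProduct, Pi.zero_apply]
          exact h1 c'
        refine Matrix.eq_zero_of_mulVec_eq_zero ?_ h3
        have h4 : ((Matrix.of fun c' c => ∑ i, T g c' i • w g i c : Matrix M M A).map
            (fun z => φ₀ (ι z))).det =
            φ₀ (ι (Matrix.of fun c' c => ∑ i, T g c' i • w g i c : Matrix M M A).det) :=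
          (((φ₀.comp ι : A →ₐ[κ] κ) : A →+* κ).map_det _).symm
        rw [h4]
        exact hφ₀g g
      funext j
      refine Fin.cases h0 (fun j => ?_) j
      exact congrFun hsucc j

end Pool.Agent.K3h28.NF
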