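import Mathlib
import Pool.Agent.K3h28.NF.VDet

/-!
# Cubes in several coordinates, continued
-/

set_option autoImplicit false

namespace Pool.Agent.K3h28.NF

open Finset Module
open Pool.Agent.H297R2 (NoRel Ex DegLE LinePoly exists_hom cube_nonvanish noRel_iff
  totalDegree_sum_monomial_le)

/-- Existence of good evaluation points. -/
theorem exists_eval {κ C σ M B : Type*} [Field κ] [IsAlgClosed κ] [Field C] [Algebra κ C]
    [Fintype σ] [Fintype M] [Fintype B] (D h : ℕ)
    (hB : Fintype.card M * Fintype.card (Ex (σ ⊕ M) D) + h < Fintype.card B)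
    (t : σ → C) (ht : NoRel κ D t) {G : Type*} [Fintype G]
    (w : G → B → M → C) (hw : ∀ g, Wide κ h (w g)) (U : Set C) (hU : U.Finite)
    (htU : ∀ i, t i ∈ U) (hwU : ∀ g i c, w g i c ∈ U) :
    ∃ τ : Ex (σ ⊕ M) D → (Algebra.adjoin κ U →ₐ[κ] κ),
      (∃ x₀, evalDet D (fun j i => τ j ⟨t i, Algebra.subset_adjoin (htU i)⟩) x₀ ≠ 0) ∧
      ∀ g, Submodule.span κ (Set.range (fun i (p : Ex (σ ⊕ M) D × M) =>
        τ p.1 ⟨w g i p.2, Algebra.subset_adjoin (hwU g i p.2)⟩)) = ⊤ := by
  classical
  set A := Algebra.adjoin κ U with hA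
  have hAfg : Algebra.FiniteType κ A := by
    rw [← Subalgebra.fg_iff_finiteType]
    exact ⟨hU.toFinset, by simp [hA]⟩
  set N := Fintype.card (Ex (σ ⊕ M) D) with hN
  set tA : σ → A := fun i => ⟨t i, Algebra.subset_adjoin (htU i)⟩ with htA
  set wA : G → B → M → A := fun g i c => ⟨w g i c, Algebra.subset_adjoin (hwU g i c)⟩ with hwA
  have htA' : NoRel κ D tA := by
    intro P hP hx
    apply ht P hP
    have h1 : MvPolynomial.aeval t P = A.val (MvPolynomial.aeval tA P) :=
      (MvPolynomial.comp_aeval_apply (f := tA) A.val P).symm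
    rw [h1, hx, map_zero]
  set fam : Ex (σ ⊕ M) D → MvPolynomial M A := fun s =>
    (∏ m, (MvPolynomial.X m : MvPolynomial M A) ^ (s.1 (Sum.inr m))) *
      ∏ i, (MvPolynomial.C (tA i)) ^ (s.1 (Sum.inl i)) with hfam
  set W : Submodule κ (MvPolynomial M A) := Submodule.span κ (Set.range fam) with hW
  have hfin : Module.Finite κ W := FiniteDimensional.span_of_finite κ (Set.finite_range _)
  let ι : A →ₐ[κ] MvPolynomial M A := IsScalarTower.toAlgHom κ A (MvPolynomial M A)
  have hι : Function.Injective ι := MvPolynomial.C_injective M A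
  have hPfg : Algebra.FiniteType κ (MvPolynomial M A) :=
    Algebra.FiniteType.trans (S := A) hAfg inferInstance
  obtain ⟨φ, hφ1, hφ2⟩ := exists_points κ A (MvPolynomial M A) ι hι h wA hw N W
    (by
      rw [hW]
      exact finrank_range_le_card fam) (fun _ => ⊥) (fun g => by
      rw [finrank_bot]
      omega)
  have e : Fin N ≃ Ex (σ ⊕ M) D := (Fintype.equivFin _).symm
  let τ : Ex (σ ⊕ M) D → (A →ₐ[κ] κ) := fun j => (φ (e.symm j)).comp ι
  refine ⟨τ, ?_, ?_⟩
  · refine ⟨fun p => φ (e.symm p.1) (MvPolynomial.X p.2), ?_⟩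
    intro hdet
    unfold evalDet at hdet
    rw [← Matrix.exists_vecMul_eq_zero_iff] at hdet
    obtain ⟨c, hc0, hc⟩ := hdet
    apply hc0
    funext s
    refine monomials_indep D tA htA' c ?_ s
    apply hφ1
    · apply Submodule.sum_mem
      intro s _
      exact Submodule.smul_mem _ _ (Submodule.subset_span ⟨s, rfl⟩)
    · intro j
      have h1 := congrFun hc (e j)
      rw [Matrix.vecMul, dotProduct] at h1
      rw [Pi.zero_apply] at h1
      rw [map_sum, ← h1]
      apply Finset.sum_congr rfl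
      intro s _
      simp only [map_smul, smul_eq_mul, map_mul, map_pow, map_prod, Matrix.of_apply,
        Equiv.symm_apply_apply]
      congr 2
      apply Finset.prod_congr rfl
      intro i _
      simp only [τ, AlgHom.comp_apply, Equiv.symm_apply_apply]
      rfl
  · intro g
    set v : B → (Ex (σ ⊕ M) D × M) → κ := fun i p => τ p.1 (wA g i p.2) with hv
    show Submodule.span κ (Set.range v) = ⊤
    by_contra hne
    obtain ⟨f, hf0, hf⟩ := Submodule.exists_le_ker_of_lt_top _ (lt_top_iff_ne_top.2 hne)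
    apply hf0
    have hfx : ∀ x : (Ex (σ ⊕ M) D × M) → κ, f x = ∑ p, f (Pi.single p 1) * x p := by
      intro x
      have h1 : x = ∑ p, x p • (Pi.single p (1 : κ) : (Ex (σ ⊕ M) D × M) → κ) := by
        funext p
        rw [Finset.sum_apply]
        simp [Pi.single_apply]
      conv_lhs => rw [h1]
      rw [map_sum]
      apply Finset.sum_congr rfl
      intro c _
      rw [map_smul, smul_eq_mul, mul_comm]
    have h2 := hφ2 g (fun j c => f (Pi.single (e j, c) 1)) (by
      rw [Submodule.mem_bot]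
      funext i
      rw [Pi.zero_apply]
      have h3 : f (v i) = 0 := hf (Submodule.subset_span ⟨i, rfl⟩)
      rw [hfx, Fintype.sum_prod_type] at h3
      rw [← h3, ← e.sum_comp]
      apply Finset.sum_congr rfl
      intro j _
      apply Finset.sum_congr rfl
      intro c _
      simp only [hv, τ, AlgHom.comp_apply, Equiv.symm_apply_apply])
    apply LinearMap.ext
    intro x
    rw [hfx, LinearMap.zero_apply]
    apply Finset.sum_eq_zero
    intro p _
    have h4 := congrFun (congrFun h2 (e.symm p.1)) p.2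
    simp only [Equiv.apply_symm_apply, Pi.zero_apply, Prod.mk.eta] at h4
    rw [h4, zero_mul]

theorem noRel_of_evalDet {κ C σ M : Type*} [Field κ] [Field C] [Algebra κ C] [Fintype σ]
    [Fintype M] (D : ℕ) (t : σ → C) (U : Set C) (htU : ∀ i, t i ∈ U)
    (τ : Ex (σ ⊕ M) D → (Algebra.adjoin κ U →ₐ[κ] κ)) (v : M → Algebra.adjoin κ U)
    (h : evalDet D (fun j i => τ j ⟨t i, Algebra.subset_adjoin (htU i)⟩)
      (fun p : Ex (σ ⊕ M) D × M => τ p.1 (v p.2)) ≠ 0) :
    NoRel κ D (Sum.elim t (fun c => (v c : C))) := by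
  classical
  rw [noRel_iff]
  intro c hc
  unfold evalDet at h
  have h1 : ∑ s : Ex (σ ⊕ M) D, c s • ((∏ m, v m ^ (s.1 (Sum.inr m))) *
      ∏ i, (⟨t i, Algebra.subset_adjoin (htU i)⟩ : Algebra.adjoin κ U) ^ (s.1 (Sum.inl i))) = 0 := by
    apply Subtype.ext
    rw [ZeroMemClass.coe_zero, ← hc]
    push_cast
    apply Finset.sum_congr rfl
    intro s _
    rw [Fintype.prod_sum_type]
    simp only [Sum.elim_inl, Sum.elim_inr]
    rw [mul_comm]
  have h2 := Matrix.eq_zero_of_vecMul_eq_zero h (v := c) (by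
    funext j
    have h3 := congrArg (τ j) h1
    rw [map_sum, map_zero] at h3
    rw [Pi.zero_apply, ← h3, Matrix.vecMul, dotProduct]
    apply Finset.sum_congr rfl
    intro s _
    simp only [map_smul, map_mul, map_pow, map_prod, Matrix.of_apply, smul_eq_mul])
  intro s
  rw [h2]
  rfl

/-- **No cube is entirely exceptional.** -/
theorem cube_free (κ C : Type*) [Field κ] [IsAlgClosed κ] [CharZero κ] [Field C] [Algebra κ C]
    (σ M : Type*) [Fintype σ] [Fintype M] (D h : ℕ) : ∃ r : ℕ, ∀ t : σ → C, NoRel κ D t →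
    ∀ (v₀ : M → C) (w : Fin r → M → C),
    (∀ (B : Finset (Fin r)), h < B.card → ∀ V : Submodule κ (B → κ), h < finrank κ V →
      ∀ α : M → C, (∀ T ∈ V, ∑ c, α c * ∑ i, T i • w i c = 0) → α = 0) →
    ∃ S : Finset (Fin r), NoRel κ D (Sum.elim t (fun c => v₀ c + ∑ i ∈ S, w i c)) := by
  classical
  set I := Ex (σ ⊕ M) D with hI
  set d := Fintype.card I * D with hd
  set b := Fintype.card M * Fintype.card I + h + 1 with hb
  refine ⟨Fintype.card (Fin d × Fin b), ?_⟩
  intro t ht v₀ w hw
  have e : Fin (Fintype.card (Fin d × Fin b)) ≃ Fin d × Fin b := (Fintype.equivFin _).symm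
  set U : Set C := Set.range t ∪ Set.range (fun p : Fin (Fintype.card (Fin d × Fin b)) × M => w p.1 p.2)
    ∪ Set.range v₀ with hU
  have hUf : U.Finite := ((Set.finite_range _).union (Set.finite_range _)).union (Set.finite_range _)
  have htU : ∀ i, t i ∈ U := fun i => Or.inl (Or.inl ⟨i, rfl⟩)
  have hwU : ∀ k c, w k c ∈ U := fun k c => Or.inl (Or.inr ⟨(k, c), rfl⟩)
  have hvU : ∀ c, v₀ c ∈ U := fun c => Or.inr ⟨c, rfl⟩
  have hwide : ∀ g : Fin d, Wide κ h (fun (i : Fin b) => w (e.symm (g, i))) := by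
    intro g V hV α hα
    set Bg : Finset (Fin (Fintype.card (Fin d × Fin b))) :=
      univ.image (fun i : Fin b => e.symm (g, i)) with hBg
    have hinj : Function.Injective (fun i : Fin b => e.symm (g, i)) := by
      intro i j hij
      exact (Prod.mk.inj (e.symm.injective hij)).2
    have hBc : Bg.card = b := by
      rw [hBg, Finset.card_image_of_injective _ hinj, Finset.card_univ, Fintype.card_fin]
    -- the bijection
    let eB : Fin b ≃ Bg := Equiv.ofBijective
      (fun i => ⟨e.symm (g, i), Finset.mem_image.2 ⟨i, Finset.mem_univ _, rfl⟩⟩) (by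
        constructor
        · intro i j hij
          exact hinj (congrArg Subtype.val hij)
        · rintro ⟨x, hx⟩
          obtain ⟨i, -, hi⟩ := Finset.mem_image.1 hx
          exact ⟨i, Subtype.ext hi⟩)
    let L : (Fin b → κ) ≃ₗ[κ] (Bg → κ) := LinearEquiv.funCongrLeft κ κ eB.symm
    refine hw Bg (by omega) (V.map (L : (Fin b → κ) →ₗ[κ] (Bg → κ))) ?_ α ?_
    · rw [LinearEquiv.finrank_map_eq]
      exact hV
    · intro T hT
      obtain ⟨T', hT', rfl⟩ := hT
      rw [← hα T' hT']
      apply Finset.sum_congr rfl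
      intro c _
      congr 1
      rw [← eB.sum_comp]
      apply Finset.sum_congr rfl
      intro i _
      have h1 : (L : (Fin b → κ) →ₗ[κ] (Bg → κ)) T' (eB i) = T' i := by
        show T' (eB.symm (eB i)) = T' i
        rw [Equiv.symm_apply_apply]
      rw [h1]
      rfl
  obtain ⟨τ, hne, hspan⟩ := exists_eval D h (B := Fin b) (by rw [Fintype.card_fin, hb]; exact Nat.lt_succ_self _) t ht
    (G := Fin d) (fun g i => w (e.symm (g, i))) hwide U hUf htU (fun g i c => hwU _ _)
  set vA : M → Algebra.adjoin κ U := fun c => ⟨v₀ c, Algebra.subset_adjoin (hvU c)⟩ with hvA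
  set wA : Fin (Fintype.card (Fin d × Fin b)) → M → Algebra.adjoin κ U :=
    fun k c => ⟨w k c, Algebra.subset_adjoin (hwU k c)⟩ with hwA
  obtain ⟨η, hη⟩ := cube_nonvanish d (evalDet D (fun j i => τ j ⟨t i, Algebra.subset_adjoin (htU i)⟩))
    (evalDet_degLE D _) (evalDet_linePoly D _) hne
    (fun g i (p : Ex (σ ⊕ M) D × M) => τ p.1 (wA (e.symm (g, i)) p.2)) hspan
    (fun p => τ p.1 (vA p.2))
  refine ⟨univ.filter (fun k => η (e k).1 = some (e k).2), ?_⟩
  set S := univ.filter (fun k => η (e k).1 = some (e k).2) with hS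
  have hcoe : (fun c => v₀ c + ∑ i ∈ S, w i c) =
      fun c => ((vA c + ∑ i ∈ S, wA i c : Algebra.adjoin κ U) : C) := by
    funext c
    push_cast
    rfl
  rw [hcoe]
  apply noRel_of_evalDet D t U htU τ
  convert hη using 2
  funext p
  rw [map_add, Pi.add_apply, map_sum]
  congr 1
  rw [Finset.sum_apply, hS, Finset.sum_filter]
  rw [← e.symm.sum_comp]
  rw [Fintype.sum_prod_type]
  apply Finset.sum_congr rfl
  intro g _
  simp only [Equiv.apply_symm_apply]
  rcases hηg : η g with _ | i₀
  · simp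
  · rw [Finset.sum_eq_single i₀]
    · simp
    · intro i _ hi
      rw [if_neg]
      intro h
      exact hi (Option.some.inj h).symm
    · intro h; exact absurd (mem_univ _) h

end Pool.Agent.K3h28.NF
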