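import Mathlib
import Pool.Agent.K3h28.NF.VCube
import Pool.Agent.W254.HP.Prod
import Pool.Agent.H297R2.BakerThm

/-!
# Independent logarithms are wide (by the hyperplane theorem)
-/

set_option autoImplicit false

namespace Pool.Agent.K3h28.NF

open Finset Module
open Pool.Agent.H301R2.SSE (QB mem_QB Lt Lt_rep Lt_mul Lt_alg Lt_log)
open Pool.Agent.H297R2 (NoRel)

/-- A family of vectors of linear forms in logarithms with independent entries is wide. -/
theorem wide_of_indep {B M : Type*} [Fintype B] [Fintype M] (w : B → M → ℂ)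
    (hw : ∀ i c, w i c ∈ Lt) (hli : LinearIndependent QB (fun p : B × M => w p.1 p.2)) :
    Wide QB (Fintype.card M * (Fintype.card M - 1)) w := by
  classical
  intro V hV α hα
  by_contra hα0
  set X : Submodule QB ℂ := Submodule.span QB (Set.range α) with hX
  have hXf : FiniteDimensional QB X := FiniteDimensional.span_of_finite QB (Set.finite_range _)
  set d := finrank QB X with hd
  have hdm : d ≤ Fintype.card M := finrank_range_le_card α
  let bX := Module.finBasis QB X
  let x : Fin d → ℂ := fun e => ((bX e : X) : ℂ)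
  have hx : LinearIndependent QB x := bX.linearIndependent.map' X.subtype X.ker_subtype
  have hαX : ∀ c, α c ∈ X := fun c => Submodule.subset_span ⟨c, rfl⟩
  let ρ : M → Fin d → QB := fun c e => bX.repr ⟨α c, hαX c⟩ e
  have hαr : ∀ c, α c = ∑ e, ρ c e • x e := by
    intro c
    have h3 := bX.sum_repr ⟨α c, hαX c⟩
    have h4 := congrArg (fun z : X => (z : ℂ)) h3
    simp only [Submodule.coe_sum, Submodule.coe_smul] at h4
    exact h4.symm
  obtain ⟨c₁, e₁, hce⟩ : ∃ c e, ρ c e ≠ 0 := by
    by_contra hcon
    push Not at hcon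
    apply hα0
    funext c
    rw [hαr c, Pi.zero_apply]
    apply Finset.sum_eq_zero
    intro e _
    rw [hcon c e, zero_smul]
  set l := finrank QB V with hl
  let bV := Module.finBasis QB V
  let T : Fin l → (B → QB) := fun k => (bV k : B → QB)
  have hTV : ∀ k, T k ∈ V := fun k => (bV k).2
  let a : Fin d → Fin l → ℂ := fun e k => ∑ c, ρ c e • ∑ i, T k i • w i c
  have hhyp := Pool.Agent.W254.HP.hyperplane d l x a hx ?_ ?_ ?_
  · have h1 : d * (d - 1) ≤ Fintype.card M * (Fintype.card M - 1) := by
      apply Nat.mul_le_mul hdm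
      omega
    omega
  · intro e k
    apply Submodule.sum_mem
    intro c _
    apply Submodule.smul_mem
    apply Submodule.sum_mem
    intro i _
    exact Submodule.smul_mem _ _ (hw i c)
  · intro k
    have h1 := hα (T k) (hTV k)
    rw [← h1]
    simp only [a, Finset.mul_sum]
    rw [Finset.sum_comm]
    apply Finset.sum_congr rfl
    intro c _
    conv_rhs => rw [hαr c]
    simp only [Finset.sum_mul, Finset.mul_sum, Finset.smul_sum]
    rw [Finset.sum_comm]
    apply Finset.sum_congr rfl
    intro i _
    apply Finset.sum_congr rfl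
    intro e _
    simp only [Algebra.smul_def]
    ring
  · rw [Fintype.linearIndependent_iff]
    intro g hg
    have h1 : ∀ p : B × M, ρ p.2 e₁ * ∑ k, g k * T k p.1 = 0 := by
      apply Fintype.linearIndependent_iff.1 hli (fun p : B × M => ρ p.2 e₁ * ∑ k, g k * T k p.1)
      have h2 := congrFun hg e₁
      rw [Finset.sum_apply] at h2
      rw [Pi.zero_apply] at h2
      rw [← h2, Fintype.sum_prod_type]
      simp only [Pi.smul_apply, a, Finset.smul_sum, smul_smul, Finset.mul_sum, Finset.sum_smul]
      rw [Finset.sum_comm]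
      rw [Finset.sum_comm (s := (univ : Finset (Fin l)))]
      apply Finset.sum_congr rfl
      intro c _
      rw [Finset.sum_comm]
      apply Finset.sum_congr rfl
      intro k _
      apply Finset.sum_congr rfl
      intro i _
      congr 1
      ring
    have h3 : ∑ k, g k • T k = 0 := by
      funext i
      rw [Finset.sum_apply, Pi.zero_apply]
      have h4 := h1 (i, c₁)
      rcases mul_eq_zero.1 h4 with h5 | h5
      · exact absurd h5 hce
      · rw [← h5]
        apply Finset.sum_congr rfl
        intro k _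
        rw [Pi.smul_apply, smul_eq_mul]
    have h6 : ∑ k, g k • bV k = 0 := by
      apply Subtype.ext
      rw [Submodule.coe_sum]
      simpa using h3
    exact Fintype.linearIndependent_iff.1 bV.linearIndependent g h6

/-- Baker's theorem as linear independence. -/
theorem baker_indep {ι : Type} [Fintype ι] (ω : ι → ℂ)
    (halg : ∀ i, IsAlgebraic ℚ (Complex.exp (ω i))) (hω : LinearIndependent ℚ ω) :
    LinearIndependent QB ω := by
  rw [Fintype.linearIndependent_iff]
  intro c hc i
  have h1 := Pool.Agent.H297R2.baker ω halg hω (fun i => (c i : ℂ)) (fun i => mem_QB.1 (c i).2) (by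
    rw [← hc]
    apply Finset.sum_congr rfl
    intro i _
    rw [Algebra.smul_def]
    rfl) i
  exact_mod_cast h1

/-- **No cube of vectors of independent logarithms is entirely exceptional.** -/
theorem cube_logs (σ M : Type) [Fintype σ] [Fintype M] (D : ℕ) : ∃ r : ℕ, ∀ t : σ → ℂ,
    NoRel QB D t → ∀ (v₀ : M → ℂ) (w : Fin r → M → ℂ),
    (∀ i c, IsAlgebraic ℚ (Complex.exp (w i c))) →
    LinearIndependent ℚ (fun p : Fin r × M => w p.1 p.2) →
    ∃ S : Finset (Fin r), NoRel QB D (Sum.elim t (fun c => v₀ c + ∑ i ∈ S, w i c)) := by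
  classical
  have hac : IsAlgClosed QB := (algebraicClosure.isAlgClosure ℚ ℂ).isAlgClosed
  obtain ⟨r, hr⟩ := cube_free QB ℂ σ M D (Fintype.card M * (Fintype.card M - 1))
  refine ⟨r, fun t ht v₀ w halg hli => hr t ht v₀ w ?_⟩
  intro B _
  have hliQ := baker_indep (fun p : Fin r × M => w p.1 p.2) (fun p => halg _ _) hli
  refine wide_of_indep (fun (i : B) c => w i c) (fun i c => Lt_log (halg _ _)) ?_
  refine hliQ.comp (fun p : B × M => ((p.1 : Fin r), p.2)) ?_
  rintro ⟨⟨i, hi⟩, c⟩ ⟨⟨j, hj⟩, c'⟩ h
  simp only [Prod.mk.injEq] at h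
  obtain ⟨h1, h2⟩ := h
  subst h1
  subst h2
  rfl

end Pool.Agent.K3h28.NF
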