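import Mathlib

/-!
# Balanced generators of principal ideals of a number field
-/

set_option autoImplicit false

namespace Pool.Agent.K3h28.NF

open NumberField NumberField.mixedEmbedding NumberField.InfinitePlace Finset
open NumberField.mixedEmbedding.fundamentalCone

/-- A product of bounded factors equal to one has factors bounded from below. -/
theorem lower_of_prod {ι : Type*} [Fintype ι] (a : ι → ℝ) (m : ι → ℕ) (R : ℝ) (hR : 1 ≤ R)
    (ha0 : ∀ i, 0 < a i) (ha : ∀ i, a i ≤ R) (hm : ∀ i, 1 ≤ m i) (hprod : ∏ i, a i ^ m i = 1)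
    (i : ι) : (R ^ (∑ j, m j))⁻¹ ≤ a i := by
  classical
  have h1 : a i ^ m i * ∏ j ∈ univ.erase i, a j ^ m j = 1 := by
    rw [← hprod]
    exact Finset.mul_prod_erase univ (fun j => a j ^ m j) (mem_univ i)
  have h2 : ∏ j ∈ univ.erase i, a j ^ m j ≤ R ^ (∑ j, m j) := by
    calc ∏ j ∈ univ.erase i, a j ^ m j ≤ ∏ j ∈ univ.erase i, R ^ m j := by
          apply Finset.prod_le_prod
          · intro j _; exact (pow_pos (ha0 j) _).le
          · intro j _; exact pow_le_pow_left₀ (ha0 j).le (ha j) _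
      _ = R ^ (∑ j ∈ univ.erase i, m j) := by rw [Finset.prod_pow_eq_pow_sum]
      _ ≤ R ^ (∑ j, m j) := by
          apply pow_le_pow_right₀ hR
          exact Finset.sum_le_sum_of_subset (Finset.erase_subset _ _)
  have hRp : 0 < R ^ (∑ j, m j) := by positivity
  have hp : 0 < ∏ j ∈ univ.erase i, a j ^ m j := Finset.prod_pos (fun j _ => pow_pos (ha0 j) _)
  have h3 : (R ^ (∑ j, m j))⁻¹ ≤ a i ^ m i := by
    have h4 : a i ^ m i = (∏ j ∈ univ.erase i, a j ^ m j)⁻¹ := eq_inv_of_mul_eq_one_left h1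
    rw [h4]
    exact inv_anti₀ hp h2
  by_cases h5 : a i ≤ 1
  · refine h3.trans ?_
    calc a i ^ m i ≤ a i ^ 1 := pow_le_pow_of_le_one (ha0 i).le h5 (hm i)
      _ = a i := pow_one _
  · push Not at h5
    refine le_trans ?_ h5.le
    exact inv_le_one_of_one_le₀ (one_le_pow₀ hR)

/-- Every nonzero integer of a number field has an associate all of whose conjugates are large. -/
theorem balanced (K : Type*) [Field K] [NumberField K] : ∃ c : ℝ, 0 < c ∧ ∀ x : 𝓞 K, x ≠ 0 →
    ∃ u : (𝓞 K)ˣ, ∀ w : InfinitePlace K,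
      c * (|Algebra.norm ℚ (x : K)| : ℝ) ^ ((Module.finrank ℚ K : ℝ)⁻¹) ≤
        w ((((u : 𝓞 K) * x : 𝓞 K)) : K) := by
  classical
  obtain ⟨R₀, hR₀⟩ := (isBounded_normLeOne K).exists_norm_le
  set R : ℝ := max R₀ 1 with hR
  have hR1 : 1 ≤ R := le_max_right _ _
  have hRb : ∀ z ∈ normLeOne K, ‖z‖ ≤ R := fun z hz => (hR₀ z hz).trans (le_max_left _ _)
  set d := Module.finrank ℚ K with hd
  have hd0 : d ≠ 0 := Module.finrank_pos.ne'
  have hdr : (d : ℝ) ≠ 0 := by exact_mod_cast hd0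
  refine ⟨(R ^ d)⁻¹, by positivity, ?_⟩
  intro x hx
  have hxK : (x : K) ≠ 0 := by exact_mod_cast hx
  set n : ℝ := (|Algebra.norm ℚ (x : K)| : ℝ) with hn
  have hn0 : 0 < n := by
    rw [hn]
    have : Algebra.norm ℚ (x : K) ≠ 0 := by rwa [Ne, Algebra.norm_eq_zero_iff]
    exact_mod_cast abs_pos.2 this
  have hz : mixedEmbedding.norm (mixedEmbedding K (x : K)) = n := by
    rw [norm_eq_norm, hn]
    push_cast
    rfl
  obtain ⟨u, hu⟩ := exists_unit_smul_mem (K := K) (x := mixedEmbedding K (x : K)) (by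
    rw [hz]; exact hn0.ne')
  refine ⟨u, ?_⟩
  set N : ℝ := n ^ ((d : ℝ)⁻¹) with hN
  have hN0 : 0 < N := by positivity
  have hNd : N ^ d = n := by
    rw [hN]
    exact Real.rpow_inv_natCast_pow hn0.le hd0
  have hus : u • mixedEmbedding K (x : K) = mixedEmbedding K ((((u : 𝓞 K) * x : 𝓞 K)) : K) := by
    rw [unitSMul_smul, ← map_mul]
    rfl
  rw [hus] at hu
  set y : mixedSpace K := N⁻¹ • mixedEmbedding K ((((u : 𝓞 K) * x : 𝓞 K)) : K) with hy
  have hnu : mixedEmbedding.norm (mixedEmbedding K ((((u : 𝓞 K) * x : 𝓞 K)) : K)) = n := by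
    rw [← hus, norm_unit_smul, hz]
  have hyn : mixedEmbedding.norm y = 1 := by
    rw [hy, mixedEmbedding.norm_smul, hnu, abs_of_pos (by positivity), inv_pow, hNd]
    exact inv_mul_cancel₀ hn0.ne'
  have hym : y ∈ normLeOne K := by
    rw [mem_normLeOne]
    exact ⟨smul_mem_of_mem hu (by positivity), hyn.le⟩
  have hyR := hRb y hym
  have hyw : ∀ w, normAtPlace w y ≤ R := by
    intro w
    refine le_trans ?_ hyR
    rw [norm_eq_sup'_normAtPlace]
    exact Finset.le_sup' (fun w => normAtPlace w y) (mem_univ w)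
  have hyw0 : ∀ w, 0 < normAtPlace w y := fun w =>
    normAtPlace_pos_of_mem (smul_mem_of_mem hu (by positivity)) w
  have hprod : ∏ w, normAtPlace w y ^ mult w = 1 := by
    rw [← mixedEmbedding.norm_apply, hyn]
  intro w
  have h1 := lower_of_prod (fun w => normAtPlace w y) (fun w : InfinitePlace K => mult w) R hR1 hyw0
    hyw (fun w => mult_pos (w := w)) hprod w
  rw [sum_mult_eq] at h1
  have h2 : normAtPlace w y = N⁻¹ * w ((((u : 𝓞 K) * x : 𝓞 K)) : K) := by
    rw [hy, normAtPlace_smul, normAtPlace_apply, abs_of_pos (by positivity)]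
  rw [h2] at h1
  rw [inv_mul_eq_div, le_div_iff₀ hN0] at h1
  exact h1

end Pool.Agent.K3h28.NF
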