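import Mathlib
import Pool.Agent.H437R2.Man.LowBox

/-!
# Boxes in the ring of integers of a number field: packing and covering by residue classes
-/

set_option autoImplicit false

namespace Pool.Agent.K3h28.NF

open NumberField Finset Filter Topology
open Pool.Agent.H437R2.Man.Low (Idx el el_sub el_inj CC one_le_CC el_le card_Idx)

section

variable {K : Type} [Field K] [NumberField K]

/-- coordinates with respect to the integral basis -/
noncomputable def crd (x : 𝓞 K) : Idx K → ℤ := (RingOfIntegers.basis K).equivFun x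

theorem el_crd (x : 𝓞 K) : el (crd x) = x := by
  unfold el crd
  rw [LinearEquiv.symm_apply_apply]

theorem crd_el (z : Idx K → ℤ) : crd (el z : 𝓞 K) = z := by
  unfold el crd
  rw [LinearEquiv.apply_symm_apply]

theorem crd_add (x y : 𝓞 K) : crd (x + y) = crd x + crd y := by
  unfold crd
  rw [map_add]

theorem crd_neg (x : 𝓞 K) : crd (-x) = - crd x := by
  unfold crd
  rw [map_neg]

/-- the box -/
noncomputable def bx (K : Type) [Field K] [NumberField K] (X : ℕ) : Finset (𝓞 K) :=
  (Fintype.piFinset (fun _ : Idx K => Finset.Icc (-(X : ℤ)) X)).map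
    ⟨fun z => el z, fun _ _ h => el_inj h⟩

theorem mem_bx {X : ℕ} {x : 𝓞 K} : x ∈ bx K X ↔ ∀ i, |crd x i| ≤ X := by
  unfold bx
  rw [Finset.mem_map]
  constructor
  · rintro ⟨z, hz, rfl⟩ i
    rw [Fintype.mem_piFinset] at hz
    have := hz i
    rw [Finset.mem_Icc] at this
    show |crd (el z : 𝓞 K) i| ≤ X
    rw [crd_el, abs_le]
    exact this
  · intro h
    refine ⟨crd x, ?_, el_crd x⟩
    rw [Fintype.mem_piFinset]
    intro i
    rw [Finset.mem_Icc, ← abs_le]
    exact h i

theorem card_bx (X : ℕ) : (bx K X).card = (2 * X + 1) ^ Module.finrank ℚ K := by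
  unfold bx
  rw [Finset.card_map, Fintype.card_piFinset, Finset.prod_const, Finset.card_univ, card_Idx]
  congr 1
  rw [Int.card_Icc]
  omega

theorem bx_mono {X Y : ℕ} (h : X ≤ Y) : bx K X ⊆ bx K Y := by
  intro x hx
  rw [mem_bx] at hx ⊢
  intro i
  exact (hx i).trans (by exact_mod_cast h)

theorem bx_add {X R : ℕ} {x y : 𝓞 K} (hx : x ∈ bx K X) (hy : y ∈ bx K R) : x + y ∈ bx K (X + R) := by
  rw [mem_bx] at hx hy ⊢
  intro i
  rw [crd_add, Pi.add_apply]
  push_cast
  exact (abs_add_le _ _).trans (add_le_add (hx i) (hy i))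

theorem bx_sub {X R : ℕ} {x y : 𝓞 K} (hx : x ∈ bx K X) (hy : y ∈ bx K R) : x - y ∈ bx K (X + R) := by
  rw [sub_eq_add_neg]
  apply bx_add hx
  rw [mem_bx] at hy ⊢
  intro i
  rw [crd_neg, Pi.neg_apply, abs_neg]
  exact hy i

theorem exists_bx (x : 𝓞 K) : ∃ R, x ∈ bx K R := by
  refine ⟨univ.sup (fun i => (crd x i).natAbs), ?_⟩
  rw [mem_bx]
  intro i
  have h1 : (crd x i).natAbs ≤ univ.sup (fun i => (crd x i).natAbs) :=
    Finset.le_sup (f := fun i => (crd x i).natAbs) (mem_univ i)
  rw [Int.abs_eq_natAbs]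
  exact_mod_cast h1

open Classical in
/-- Packing and covering. -/
theorem pack (I : Ideal (𝓞 K)) (hI : I ≠ ⊥) : ∃ R : ℕ, ∀ X : ℕ,
    Ideal.absNorm I * ((bx K X).filter (fun x => x ∈ I)).card ≤ (bx K (X + R)).card ∧
    (bx K X).card ≤ Ideal.absNorm I * ((bx K (X + R)).filter (fun x => x ∈ I)).card := by
  have hfin : Finite (𝓞 K ⧸ I) := Ideal.finiteQuotientOfFreeOfNeBot I hI
  have : Fintype (𝓞 K ⧸ I) := Fintype.ofFinite _
  have hN : Ideal.absNorm I = Fintype.card (𝓞 K ⧸ I) := by
    rw [Ideal.absNorm_apply, Submodule.cardQuot_apply, Nat.card_eq_fintype_card]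
  have hrep : ∀ q : 𝓞 K ⧸ I, ∃ x : 𝓞 K, Ideal.Quotient.mk I x = q := fun q =>
    Ideal.Quotient.mk_surjective q
  choose rep hrep using hrep
  choose ρ hρ using fun q : 𝓞 K ⧸ I => exists_bx (rep q)
  set R := univ.sup ρ with hR
  have hρR : ∀ q, rep q ∈ bx K R := fun q => bx_mono (Finset.le_sup (mem_univ q)) (hρ q)
  refine ⟨R, fun X => ⟨?_, ?_⟩⟩
  · rw [hN, ← Finset.card_univ, ← Finset.card_product]
    apply Finset.card_le_card_of_injOn (fun p : (𝓞 K ⧸ I) × 𝓞 K => p.2 + rep p.1)
    · intro p hp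
      rw [Finset.mem_coe, Finset.mem_product, Finset.mem_filter] at hp
      exact bx_add hp.2.1 (hρR p.1)
    · intro p hp p' hp' h
      rw [Finset.mem_coe, Finset.mem_product, Finset.mem_filter] at hp hp'
      have h1 : p.1 = p'.1 := by
        have h2 := congrArg (Ideal.Quotient.mk I) h
        simp only [map_add, hrep] at h2
        rw [Ideal.Quotient.eq_zero_iff_mem.2 hp.2.2, Ideal.Quotient.eq_zero_iff_mem.2 hp'.2.2,
          zero_add, zero_add] at h2
        exact h2
      apply Prod.ext h1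
      have h3 : p.2 + rep p.1 = p'.2 + rep p'.1 := h
      rw [h1] at h3
      exact add_right_cancel h3
  · rw [hN, ← Finset.card_univ, ← Finset.card_product]
    apply Finset.card_le_card_of_injOn (fun x : 𝓞 K =>
      (Ideal.Quotient.mk I x, x - rep (Ideal.Quotient.mk I x)))
    · intro x hx
      rw [Finset.mem_coe, Finset.mem_product, Finset.mem_filter]
      refine ⟨Finset.mem_univ _, bx_sub hx (hρR _), ?_⟩
      rw [← Ideal.Quotient.eq_zero_iff_mem, map_sub, hrep, sub_self]
    · intro x _ y _ h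
      have h1 := congrArg Prod.fst h
      have h2 := congrArg Prod.snd h
      simp only at h1 h2
      rw [h1] at h2
      exact sub_left_injective h2

/-- The boxes grow slowly. -/
theorem bx_growth (K : Type) [Field K] [NumberField K] (R : ℕ) (η : ℝ) (hη : 0 < η) :
    ∃ X₀ : ℕ, ∀ X ≥ X₀, ((bx K (X + R)).card : ℝ) ≤ (1 + η) * (bx K X).card := by
  set d := Module.finrank ℚ K with hd
  have h1 : Tendsto (fun X : ℕ => ((1 : ℝ) + 2 * R / (2 * X + 1)) ^ d) atTop (𝓝 1) := by
    have h2 : Tendsto (fun X : ℕ => (2 * (R : ℝ)) / (2 * X + 1)) atTop (𝓝 0) := by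
      apply Tendsto.div_atTop tendsto_const_nhds
      apply tendsto_atTop_add_const_right
      exact (tendsto_natCast_atTop_atTop (R := ℝ)).const_mul_atTop (by norm_num)
    have h3 := (tendsto_const_nhds (x := (1 : ℝ))).add h2
    rw [add_zero] at h3
    have h4 := h3.pow d
    rwa [one_pow] at h4
  have h2 := h1.eventually_lt_const (show (1 : ℝ) < 1 + η by linarith)
  rw [eventually_atTop] at h2
  obtain ⟨X₀, hX₀⟩ := h2
  refine ⟨X₀, fun X hX => ?_⟩
  have h3 := hX₀ X hX
  rw [card_bx, card_bx]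
  push_cast
  have h4 : (0 : ℝ) < 2 * X + 1 := by positivity
  have h5 : (2 * ((X : ℝ) + R) + 1) ^ d = ((1 : ℝ) + 2 * R / (2 * X + 1)) ^ d * (2 * X + 1) ^ d := by
    rw [← mul_pow]
    congr 1
    field_simp
    ring
  rw [h5]
  exact mul_le_mul_of_nonneg_right h3.le (by positivity)

/-- Elements with small conjugates have small coordinates. -/
theorem crd_le (K : Type) [Field K] [NumberField K] : ∃ C : ℝ, 0 < C ∧ ∀ (x : 𝓞 K) (T : ℝ),
    (∀ w : InfinitePlace K, w (x : K) ≤ T) → ∀ i, |(crd x i : ℝ)| ≤ C * T := by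
  classical
  obtain ⟨c, hc⟩ : ∃ c : ℝ, ∀ (α : 𝓞 K) (i : K →+* ℂ),
      ‖(((integralBasis K).reindex (equivReindex K).symm).repr α i : ℂ)‖ ≤
        c * house (algebraMap (𝓞 K) K α) := ⟨_, fun α i => house.basis_repr_norm_le_const_mul_house K α i⟩
  refine ⟨|c| + 1, by positivity, fun x T hT i => ?_⟩
  have hT0 : 0 ≤ T := by
    obtain ⟨w⟩ := (inferInstance : Nonempty (InfinitePlace K))
    exact (apply_nonneg _ _).trans (hT w)
  have h1 := hc x ((equivReindex K).symm i)
  rw [Module.Basis.repr_reindex, Finsupp.mapDomain_equiv_apply] at h1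
  simp only [Equiv.symm_symm, Equiv.apply_symm_apply] at h1
  have h2 : (integralBasis K).repr (x : K) i = ((crd x i : ℤ) : ℚ) := by
    rw [integralBasis_repr_apply]
    rfl
  rw [h2] at h1
  have h3 : ‖(((crd x i : ℤ) : ℚ) : ℂ)‖ = |(crd x i : ℝ)| := by
    rw [Rat.cast_intCast, Complex.norm_intCast]
  rw [h3] at h1
  have h4 : house (algebraMap (𝓞 K) K x) ≤ T := by
    rw [house_eq_sup', ← Real.coe_toNNReal T hT0, NNReal.coe_le_coe]
    apply Finset.sup'_le
    intro φ _
    have := hT (InfinitePlace.mk φ)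
    rw [InfinitePlace.apply] at this
    rw [← NNReal.coe_le_coe, Real.coe_toNNReal T hT0]
    exact this
  calc |(crd x i : ℝ)| ≤ c * house (algebraMap (𝓞 K) K x) := h1
    _ ≤ (|c| + 1) * house (algebraMap (𝓞 K) K x) := by
        apply mul_le_mul_of_nonneg_right _ (house_nonneg _)
        have := le_abs_self c
        linarith
    _ ≤ (|c| + 1) * T := mul_le_mul_of_nonneg_left h4 (by positivity)

end

end Pool.Agent.K3h28.NF
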