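import Mathlib
import Pool.Agent.H437R2.Man.LowPrimes
import Pool.Agent.H135R3.KumA

/-!
# The sum of the inverse norms of the primes of degree one in some ideal class diverges
-/

set_option autoImplicit false

namespace Pool.Agent.K3h28.NF

open NumberField IsDedekindDomain Finset Filter Topology
open Pool.Agent.H437R2.Man.Low (nm nm_ne_zero two_le_nm below below_data card_above summable_nm)

section

variable {K : Type} [Field K] [NumberField K]

theorem euler_le (F : Finset (HeightOneSpectrum (𝓞 K))) : ∀ G : Finset (Ideal (𝓞 K)),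
    (∀ I ∈ G, I ≠ ⊥ ∧ ∀ v : HeightOneSpectrum (𝓞 K), v.asIdeal ∣ I → v ∈ F) →
    ∑ I ∈ G, (1 : ℝ) / Ideal.absNorm I ≤ ∏ v ∈ F, (1 - 1 / (nm v : ℝ))⁻¹ := by
  classical
  induction F using Finset.induction_on with
  | empty =>
    intro G hG
    have h1 : G ⊆ {⊤} := by
      intro I hI
      rw [Finset.mem_singleton]
      by_contra hne
      obtain ⟨m, hm, hle⟩ := Ideal.exists_le_maximal I hne
      have hmb : m ≠ ⊥ := by
        intro h0
        rw [h0, le_bot_iff] at hle
        exact (hG I hI).1 hle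
      have := (hG I hI).2 ⟨m, hm.isPrime, hmb⟩ (Ideal.dvd_iff_le.2 hle)
      simp at this
    calc ∑ I ∈ G, (1 : ℝ) / Ideal.absNorm I ≤ ∑ I ∈ ({⊤} : Finset (Ideal (𝓞 K))), (1 : ℝ) / Ideal.absNorm I :=
          Finset.sum_le_sum_of_subset_of_nonneg h1 (fun _ _ _ => by positivity)
      _ ≤ _ := by simp
  | insert v F hv ih =>
    intro G hG
    have hvp : Prime v.asIdeal := Ideal.prime_of_isPrime v.ne_bot v.isPrime
    have hch : ∀ I : Ideal (𝓞 K), ∃ p : ℕ × Ideal (𝓞 K), I ≠ ⊥ →
        I = v.asIdeal ^ p.1 * p.2 ∧ ¬ v.asIdeal ∣ p.2 := by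
      intro I
      by_cases hI : I = ⊥
      · exact ⟨(0, ⊥), fun h => absurd hI h⟩
      · have hfin : FiniteMultiplicity v.asIdeal I := FiniteMultiplicity.of_prime_left hvp hI
        obtain ⟨c, hc1, hc2⟩ := hfin.exists_eq_pow_mul_and_not_dvd
        exact ⟨(_, c), fun _ => ⟨hc1, hc2⟩⟩
    choose f hf using hch
    have hinj : Set.InjOn f (G : Set (Ideal (𝓞 K))) := by
      intro I hI I' hI' h
      rw [(hf I (hG I hI).1).1, (hf I' (hG I' hI').1).1, h]
    set E := G.image (fun I => (f I).1) with hE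
    set JJ := G.image (fun I => (f I).2) with hJJ
    have hx0 : (0 : ℝ) < nm v := by exact_mod_cast Nat.pos_of_ne_zero (nm_ne_zero v)
    have hx2 : (2 : ℝ) ≤ nm v := by exact_mod_cast two_le_nm v
    have h1 : ∀ I ∈ G, (1 : ℝ) / Ideal.absNorm I =
        (1 / (nm v : ℝ)) ^ (f I).1 * ((1 : ℝ) / Ideal.absNorm (f I).2) := by
      intro I hI
      have h2 := (hf I (hG I hI).1).1
      conv_lhs => rw [h2]
      rw [map_mul, map_pow]
      push_cast
      rw [show (Ideal.absNorm v.asIdeal : ℝ) = nm v from rfl]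
      rw [one_div_pow, one_div_mul_one_div]
    have h2 : ∑ I ∈ G, (1 : ℝ) / Ideal.absNorm I ≤
        ∑ p ∈ E ×ˢ JJ, (1 / (nm v : ℝ)) ^ p.1 * ((1 : ℝ) / Ideal.absNorm p.2) := by
      rw [Finset.sum_congr rfl h1, ← Finset.sum_image (g := f)
        (f := fun p : ℕ × Ideal (𝓞 K) => (1 / (nm v : ℝ)) ^ p.1 * ((1 : ℝ) / Ideal.absNorm p.2)) hinj]
      apply Finset.sum_le_sum_of_subset_of_nonneg
      · intro p hp
        rw [Finset.mem_image] at hp
        obtain ⟨I, hI, rfl⟩ := hp
        rw [Finset.mem_product]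
        exact ⟨Finset.mem_image_of_mem _ hI, Finset.mem_image_of_mem _ hI⟩
      · intro p _ _
        positivity
    refine h2.trans ?_
    rw [Finset.sum_product, Finset.prod_insert hv]
    simp only
    rw [← Finset.sum_mul_sum]
    apply mul_le_mul
    · have hlt : 1 / (nm v : ℝ) < 1 := by
        rw [div_lt_one hx0]; linarith
      rw [← tsum_geometric_of_lt_one (by positivity) hlt]
      exact (summable_geometric_of_lt_one (by positivity) hlt).sum_le_tsum E (fun _ _ => by positivity)
    · apply ih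
      intro J hJ
      rw [hJJ, Finset.mem_image] at hJ
      obtain ⟨I, hI, rfl⟩ := hJ
      obtain ⟨h3, h4⟩ := hf I (hG I hI).1
      refine ⟨?_, ?_⟩
      · intro h5
        apply (hG I hI).1
        rw [h3, h5, Ideal.mul_bot]
      · intro u hu
        have h6 := (hG I hI).2 u (by rw [h3]; exact hu.mul_left _)
        rcases Finset.mem_insert.1 h6 with h7 | h7
        · subst h7
          exact absurd hu h4
        · exact h7
    · exact Finset.sum_nonneg (fun _ _ => by positivity)
    · have hlt : 1 / (nm v : ℝ) < 1 := by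
        rw [div_lt_one hx0]; linarith
      exact (inv_pos.2 (by linarith)).le

/-- the primes dividing one of finitely many nonzero ideals -/
theorem finite_divisors (I : Ideal (𝓞 K)) (hI : I ≠ ⊥) :
    {v : HeightOneSpectrum (𝓞 K) | v.asIdeal ∣ I}.Finite := by
  exact Ideal.finite_factors hI

theorem sum_ideals_le (B : ℝ) (hB : ∀ F : Finset (HeightOneSpectrum (𝓞 K)),
    ∑ v ∈ F, 1 / (nm v : ℝ) ≤ B) (G : Finset (Ideal (𝓞 K))) (hG : ∀ I ∈ G, I ≠ ⊥) :
    ∑ I ∈ G, (1 : ℝ) / Ideal.absNorm I ≤ Real.exp (2 * B) := by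
  classical
  have hfin : (⋃ I ∈ (G : Set (Ideal (𝓞 K))), {v : HeightOneSpectrum (𝓞 K) | v.asIdeal ∣ I}).Finite :=
    Set.Finite.biUnion G.finite_toSet (fun I hI => finite_divisors I (hG I hI))
  set F := hfin.toFinset with hF
  have h1 := euler_le F G (fun I hI => ⟨hG I hI, fun v hv => by
    rw [hF, Set.Finite.mem_toFinset, Set.mem_iUnion₂]
    exact ⟨I, hI, hv⟩⟩)
  refine h1.trans ?_
  have h2 : ∏ v ∈ F, (1 - 1 / (nm v : ℝ))⁻¹ ≤ ∏ v ∈ F, Real.exp (2 * (1 / (nm v : ℝ))) := by
    apply Finset.prod_le_prod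
    · intro v _
      have hx2 : (2 : ℝ) ≤ nm v := by exact_mod_cast two_le_nm v
      have hlt : 1 / (nm v : ℝ) < 1 := by
        rw [div_lt_one (by linarith)]; linarith
      exact (inv_pos.2 (by linarith)).le
    · intro v _
      have hx2 : (2 : ℝ) ≤ nm v := by exact_mod_cast two_le_nm v
      set y : ℝ := 1 / (nm v : ℝ) with hy
      have hy0 : 0 ≤ y := by positivity
      have hy2 : y ≤ 1 / 2 := by
        rw [hy]
        apply div_le_div_of_nonneg_left (by norm_num) (by norm_num) hx2
      have h3 : (1 - y)⁻¹ ≤ 1 + 2 * y := by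
        rw [inv_le_iff_one_le_mul₀ (by linarith)]
        nlinarith
      refine h3.trans ?_
      have := Real.add_one_le_exp (2 * y)
      linarith
  refine h2.trans ?_
  rw [← Real.exp_sum, ← Finset.mul_sum]
  apply Real.exp_le_exp.2
  have := hB F
  linarith

open Pool.Agent.H135R3.KumA in
/-- **The sum of the inverse norms of the primes of a number field diverges.** -/
theorem not_summable_nm : ¬ Summable (fun v : HeightOneSpectrum (𝓞 K) => 1 / (nm v : ℝ)) := by
  classical
  intro hs
  set B := ∑' v : HeightOneSpectrum (𝓞 K), 1 / (nm v : ℝ) with hB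
  have hB' : ∀ F : Finset (HeightOneSpectrum (𝓞 K)), ∑ v ∈ F, 1 / (nm v : ℝ) ≤ B := fun F =>
    hs.sum_le_tsum F (fun _ _ => by positivity)
  have hZ : ∀ s : ℝ, 1 < s → Z K s ≤ Real.exp (2 * B) := by
    intro s hs1
    refine (tm_summable K hs1).tsum_le_of_sum_range_le ?_
    intro N
    -- ideals of norm in `[1, N)`
    set G : Finset (Ideal (𝓞 K)) := ((Ideal.finite_setOfPred_absNorm_le (S := 𝓞 K) N).toFinset).filter
      (fun I => Ideal.absNorm I ≠ 0 ∧ Ideal.absNorm I < N) with hG
    have h1 : ∑ n ∈ range N, tm K s n ≤ ∑ I ∈ G, (1 : ℝ) / Ideal.absNorm I := by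
      have h2 : ∑ I ∈ G, (1 : ℝ) / Ideal.absNorm I =
          ∑ n ∈ range N, ∑ I ∈ G.filter (fun I => Ideal.absNorm I = n), (1 : ℝ) / Ideal.absNorm I := by
        rw [Finset.sum_fiberwise_of_maps_to]
        intro I hI
        rw [hG, Finset.mem_filter] at hI
        exact Finset.mem_range.2 hI.2.2
      rw [h2]
      apply Finset.sum_le_sum
      intro n hn
      rw [Finset.mem_range] at hn
      rw [tm]
      split_ifs with hn0
      · exact Finset.sum_nonneg (fun _ _ => by positivity)
      · have hn1 : (1 : ℝ) ≤ n := by exact_mod_cast Nat.one_le_iff_ne_zero.mpr hn0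
        have h3 : ∑ I ∈ G.filter (fun I => Ideal.absNorm I = n), (1 : ℝ) / Ideal.absNorm I =
            ((G.filter (fun I => Ideal.absNorm I = n)).card : ℝ) * (1 / n) := by
          rw [← nsmul_eq_mul, ← Finset.sum_const]
          apply Finset.sum_congr rfl
          intro I hI
          rw [(Finset.mem_filter.1 hI).2]
        have h4 : cf K n = ((G.filter (fun I => Ideal.absNorm I = n)).card : ℝ) := by
          rw [cf]
          congr 1
          rw [← Nat.card_eq_finsetCard]
          apply Nat.card_congr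
          apply Equiv.subtypeEquivRight
          intro I
          constructor
          · intro hI
            rw [Finset.mem_filter, hG, Finset.mem_filter, Set.Finite.mem_toFinset]
            exact ⟨⟨by show Ideal.absNorm I ≤ N; omega, by omega, by omega⟩, hI⟩
          · intro hI
            exact (Finset.mem_filter.1 hI).2
        rw [h3, ← h4, div_eq_mul_one_div]
        apply mul_le_mul_of_nonneg_left _ (cf_nonneg K n)
        apply div_le_div_of_nonneg_left (by norm_num) (by linarith)
        calc (n : ℝ) = (n : ℝ) ^ (1 : ℝ) := (Real.rpow_one _).symm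
          _ ≤ _ := Real.rpow_le_rpow_of_exponent_le hn1 hs1.le
    refine h1.trans ?_
    apply sum_ideals_le B hB'
    intro I hI
    rw [hG, Finset.mem_filter] at hI
    intro h0
    apply hI.2.1
    rw [h0]
    exact Ideal.absNorm_bot
  have h1 := tendsto_Z K
  have h2 : Tendsto (fun s : ℝ => (s - 1) * Z K s) (𝓝[>] 1) (𝓝 0) := by
    have h3 : Tendsto (fun s : ℝ => (s - 1) * Real.exp (2 * B)) (𝓝[>] 1) (𝓝 0) := by
      have h4 : Tendsto (fun s : ℝ => (s - 1) * Real.exp (2 * B)) (𝓝 1) (𝓝 ((1 - 1) * Real.exp (2 * B))) := by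
        apply Tendsto.mul_const
        exact (continuous_id.sub continuous_const).tendsto _
      rw [sub_self, zero_mul] at h4
      exact h4.mono_left nhdsWithin_le_nhds
    refine squeeze_zero' ?_ ?_ h3
    · filter_upwards [self_mem_nhdsWithin] with s hs
      have hs1 : (1 : ℝ) < s := hs
      exact mul_nonneg (by linarith) (Z_nonneg K s)
    · filter_upwards [self_mem_nhdsWithin] with s hs
      have hs1 : (1 : ℝ) < s := hs
      exact mul_le_mul_of_nonneg_left (hZ s hs1) (by linarith)
  have h3 := tendsto_nhds_unique h1 h2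
  exact (dedekindZeta_residue_ne_zero K) h3

/-- The primes of higher degree do not matter. -/
theorem summable_higher : Summable (fun v : HeightOneSpectrum (𝓞 K) =>
    if (nm v).Prime then 0 else 1 / (nm v : ℝ)) := by
  classical
  have hs : Summable (fun m : ℕ => 1 / (m : ℝ) ^ 2) := Real.summable_one_div_nat_pow.2 (by norm_num)
  refine summable_of_sum_le (fun v => by split_ifs <;> positivity)
    (c := (Module.finrank ℚ K : ℝ) * ∑' m : ℕ, 1 / (m : ℝ) ^ 2) fun F => ?_
  have h0 : ∀ v : HeightOneSpectrum (𝓞 K), (if (nm v).Prime then 0 else 1 / (nm v : ℝ)) ≤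
      1 / (below v : ℝ) ^ 2 := by
    intro v
    have hb : (0 : ℝ) < below v := by exact_mod_cast (below_data v).1.pos
    split_ifs with h
    · positivity
    · have h2 : (below v) ^ 2 ≤ nm v := by
        have h3 := Nat.minFac_sq_le_self (Nat.pos_of_ne_zero (nm_ne_zero v)) h
        exact h3
      have h4 : ((below v : ℝ)) ^ 2 ≤ nm v := by exact_mod_cast h2
      exact div_le_div_of_nonneg_left (by norm_num) (by positivity) h4
  refine (Finset.sum_le_sum (fun v _ => h0 v)).trans ?_
  have h1 : ∑ v ∈ F, 1 / (below v : ℝ) ^ 2 =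
      ∑ p ∈ F.image below, ∑ v ∈ F with below v = p, 1 / (below v : ℝ) ^ 2 := by
    rw [Finset.sum_fiberwise_of_maps_to]
    intro v hv
    exact Finset.mem_image_of_mem _ hv
  rw [h1]
  have h2 : ∀ p ∈ F.image below, ∑ v ∈ F with below v = p, 1 / (below v : ℝ) ^ 2 ≤
      (Module.finrank ℚ K : ℝ) * (1 / (p : ℝ) ^ 2) := by
    intro p _
    calc ∑ v ∈ F with below v = p, 1 / (below v : ℝ) ^ 2
        = ∑ v ∈ F with below v = p, 1 / (p : ℝ) ^ 2 := by
          refine Finset.sum_congr rfl fun v hv => ?_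
          rw [Finset.mem_filter] at hv
          rw [hv.2]
      _ = ((F.filter (fun v => below v = p)).card : ℝ) * (1 / (p : ℝ) ^ 2) := by
          rw [Finset.sum_const, nsmul_eq_mul]
      _ ≤ (Module.finrank ℚ K : ℝ) * (1 / (p : ℝ) ^ 2) := by
          have := card_above p (F.filter (fun v => below v = p)) (fun v hv =>
            (Finset.mem_filter.1 hv).2)
          gcongr
  refine (Finset.sum_le_sum h2).trans ?_
  rw [← Finset.mul_sum]
  gcongr
  exact hs.sum_le_tsum _ (fun _ _ => by positivity)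

/-- the class of a prime -/
noncomputable def cls (v : HeightOneSpectrum (𝓞 K)) : ClassGroup (𝓞 K) :=
  ClassGroup.mk0 ⟨v.asIdeal, mem_nonZeroDivisors_of_ne_zero v.ne_bot⟩

open Classical in
theorem exists_class : ∃ c : ClassGroup (𝓞 K), ¬ Summable (fun v : HeightOneSpectrum (𝓞 K) =>
    if (nm v).Prime ∧ cls v = c then 1 / (nm v : ℝ) else 0) := by
  classical
  by_contra hcon
  push Not at hcon
  apply not_summable_nm (K := K)
  have h1 : Summable (fun v : HeightOneSpectrum (𝓞 K) => ∑ c : ClassGroup (𝓞 K),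
      if (nm v).Prime ∧ cls v = c then 1 / (nm v : ℝ) else 0) :=
    summable_sum (fun c _ => hcon c)
  have h2 := h1.add (summable_higher (K := K))
  refine h2.congr ?_
  intro v
  by_cases h : (nm v).Prime
  · rw [if_pos h, add_zero]
    simp [h]
  · rw [if_neg h]
    simp [h]

end

/-- Finite sets of primes of degree one in a fixed class with distinct large norms and large
reciprocal sum. -/
theorem exists_primes (K : Type) [Field K] [NumberField K] : ∃ c : ClassGroup (𝓞 K),
    ∀ (M : ℝ) (y : ℕ), ∃ F : Finset (HeightOneSpectrum (𝓞 K)),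
      (∀ v ∈ F, (nm v).Prime ∧ cls v = c ∧ y < nm v) ∧ Set.InjOn nm (F : Set (HeightOneSpectrum (𝓞 K))) ∧
      M ≤ ∑ v ∈ F, 1 / (nm v : ℝ) := by
  classical
  obtain ⟨c, hc⟩ := exists_class (K := K)
  refine ⟨c, fun M y => ?_⟩
  set d := Module.finrank ℚ K with hd
  have hd0 : 0 < d := Module.finrank_pos
  have hdr : (0 : ℝ) < d := by exact_mod_cast hd0
  -- a large finite sum
  have h1 : ∃ F : Finset (HeightOneSpectrum (𝓞 K)), (∀ v ∈ F, (nm v).Prime ∧ cls v = c ∧ y < nm v) ∧
      d * M ≤ ∑ v ∈ F, 1 / (nm v : ℝ) := by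
    by_contra hcon
    push Not at hcon
    apply hc
    have hfin : {v : HeightOneSpectrum (𝓞 K) | nm v ≤ y}.Finite := by
      apply Set.Finite.of_finite_image (f := fun v : HeightOneSpectrum (𝓞 K) => v.asIdeal)
      · apply (Ideal.finite_setOfPred_absNorm_le (S := 𝓞 K) y).subset
        rintro _ ⟨v, hv, rfl⟩
        exact hv
      · intro v _ u _ h
        exact HeightOneSpectrum.ext h
    refine summable_of_sum_le (fun v => by split_ifs <;> positivity)
      (c := d * M + ∑ v ∈ hfin.toFinset, 1 / (nm v : ℝ)) fun F => ?_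
    have h2 : ∑ v ∈ F, (if (nm v).Prime ∧ cls v = c then 1 / (nm v : ℝ) else 0) ≤
        ∑ v ∈ F.filter (fun v => (nm v).Prime ∧ cls v = c ∧ y < nm v), 1 / (nm v : ℝ) +
          ∑ v ∈ hfin.toFinset, 1 / (nm v : ℝ) := by
      have h3 : ∑ v ∈ F, (if v ∈ hfin.toFinset then 1 / (nm v : ℝ) else 0) ≤
          ∑ v ∈ hfin.toFinset, 1 / (nm v : ℝ) := by
        rw [← Finset.sum_filter]
        apply Finset.sum_le_sum_of_subset_of_nonneg
        · intro v hv
          exact (Finset.mem_filter.1 hv).2
        · intro v _ _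
          positivity
      refine le_trans ?_ (add_le_add_right h3 _)
      rw [Finset.sum_filter, ← Finset.sum_add_distrib]
      apply Finset.sum_le_sum
      intro v _
      have hpos : (0 : ℝ) ≤ 1 / (nm v : ℝ) := by positivity
      by_cases hy : nm v ≤ y
      · have hmem : v ∈ hfin.toFinset := by
          rw [Set.Finite.mem_toFinset]; exact hy
        rw [if_pos hmem]
        split_ifs <;> linarith
      · push Not at hy
        by_cases h4 : (nm v).Prime ∧ cls v = c
        · rw [if_pos h4, if_pos ⟨h4.1, h4.2, hy⟩]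
          split_ifs <;> linarith
        · rw [if_neg h4]
          split_ifs <;> linarith
    have h4 := hcon (F.filter (fun v => (nm v).Prime ∧ cls v = c ∧ y < nm v)) (fun v hv =>
      (Finset.mem_filter.1 hv).2)
    linarith
  obtain ⟨F, hF, hFM⟩ := h1
  rcases F.eq_empty_or_nonempty with hFe | hFne
  · subst hFe
    refine ⟨∅, by simp, by simp, ?_⟩
    rw [Finset.sum_empty] at hFM ⊢
    by_contra hM
    push Not at hM
    have := mul_pos hdr hM
    linarith
  have hnonempty : Nonempty (HeightOneSpectrum (𝓞 K)) := ⟨hFne.choose⟩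
  -- representatives
  have hch : ∀ p ∈ F.image nm, ∃ v ∈ F, nm v = p := by
    intro p hp
    obtain ⟨v, hv, hvp⟩ := Finset.mem_image.1 hp
    exact ⟨v, hv, hvp⟩
  choose! rep hrepF hrep using hch
  refine ⟨(F.image nm).image rep, ?_, ?_, ?_⟩
  · intro v hv
    obtain ⟨p, hp, rfl⟩ := Finset.mem_image.1 hv
    exact hF _ (hrepF p hp)
  · intro v hv u hu h
    rw [Finset.mem_coe, Finset.mem_image] at hv hu
    obtain ⟨p, hp, rfl⟩ := hv
    obtain ⟨q, hq, rfl⟩ := hu
    rw [hrep p hp, hrep q hq] at h
    rw [h]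
  · have hinj : Set.InjOn rep (F.image nm : Finset ℕ) := by
      intro p hp q hq h
      rw [← hrep p hp, ← hrep q hq, h]
    rw [Finset.sum_image hinj]
    have h2 : ∑ v ∈ F, 1 / (nm v : ℝ) = ∑ p ∈ F.image nm, ∑ v ∈ F with nm v = p, 1 / (nm v : ℝ) := by
      rw [Finset.sum_fiberwise_of_maps_to]
      intro v hv
      exact Finset.mem_image_of_mem _ hv
    have h3 : ∑ v ∈ F, 1 / (nm v : ℝ) ≤ d * ∑ p ∈ F.image nm, 1 / (nm (rep p) : ℝ) := by
      rw [h2, Finset.mul_sum]
      apply Finset.sum_le_sum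
      intro p hp
      rw [hrep p hp]
      calc ∑ v ∈ F with nm v = p, 1 / (nm v : ℝ) = ∑ v ∈ F with nm v = p, 1 / (p : ℝ) := by
            refine Finset.sum_congr rfl fun v hv => ?_
            rw [(Finset.mem_filter.1 hv).2]
        _ = ((F.filter (fun v => nm v = p)).card : ℝ) * (1 / (p : ℝ)) := by
            rw [Finset.sum_const, nsmul_eq_mul]
        _ ≤ d * (1 / (p : ℝ)) := by
            have h4 := card_above p (F.filter (fun v => nm v = p)) (fun v hv => by
              rw [Finset.mem_filter] at hv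
              have h5 := (hF v hv.1).1
              unfold below
              rw [h5.minFac_eq, hv.2])
            gcongr
    have h4 := hFM.trans h3
    exact le_of_mul_le_mul_left h4 hdr

end Pool.Agent.K3h28.NF
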