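import Mathlib
import Pool.Agent.K3h28.NF.Prm
import Pool.Agent.K3h28.NF.Bal

/-!
# Good sets of primes with balanced elements
-/

set_option autoImplicit false

namespace Pool.Agent.K3h28.NF

open NumberField IsDedekindDomain Finset Filter Topology
open Pool.Agent.H437R2.Man.Low (nm nm_ne_zero two_le_nm below below_data card_above summable_nm)

theorem good_data (K : Type) [Field K] [NumberField K] : ∃ (J : Ideal (𝓞 K)) (j : 𝓞 K),
    J ≠ ⊥ ∧ j ≠ 0 ∧ j ∈ J ∧ ∀ (M : ℝ) (y : ℕ) (Y : ℝ),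
      ∃ (F : Finset (HeightOneSpectrum (𝓞 K))) (β : HeightOneSpectrum (𝓞 K) → 𝓞 K),
        (∀ v ∈ F, (nm v).Prime ∧ y < nm v ∧ v.asIdeal * J = Ideal.span {β v} ∧
          ∀ w : InfinitePlace K, Y ≤ w ((β v : 𝓞 K) : K)) ∧
        Set.InjOn nm (F : Set (HeightOneSpectrum (𝓞 K))) ∧ M ≤ ∑ v ∈ F, 1 / (nm v : ℝ) := by
  classical
  obtain ⟨c, hc⟩ := exists_primes K
  obtain ⟨⟨J, hJ⟩, hJc⟩ := ClassGroup.mk0_surjective c⁻¹
  have hJ0 : J ≠ ⊥ := nonZeroDivisors.ne_zero hJ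
  obtain ⟨j, hjJ, hj0⟩ := Submodule.exists_mem_ne_zero_of_ne_bot hJ0
  obtain ⟨c₀, hc₀, hbal⟩ := balanced K
  refine ⟨J, j, hJ0, hj0, hjJ, fun M y Y => ?_⟩
  set d := Module.finrank ℚ K with hd
  have hd0 : d ≠ 0 := Module.finrank_pos.ne'
  -- threshold
  obtain ⟨y₁, hy₁⟩ : ∃ y₁ : ℕ, ∀ n : ℕ, y₁ < n → Y ≤ c₀ * (n : ℝ) ^ ((d : ℝ)⁻¹) := by
    obtain ⟨y₁, hy₁⟩ := exists_nat_ge ((|Y| / c₀) ^ d)
    refine ⟨y₁, fun n hn => ?_⟩
    have h1 : (|Y| / c₀) ^ d ≤ n := hy₁.trans (by exact_mod_cast hn.le)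
    have h2 : |Y| / c₀ ≤ (n : ℝ) ^ ((d : ℝ)⁻¹) := by
      calc |Y| / c₀ = ((|Y| / c₀) ^ d) ^ ((d : ℝ)⁻¹) := by
            rw [Real.pow_rpow_inv_natCast (by positivity) hd0]
        _ ≤ _ := Real.rpow_le_rpow (by positivity) h1 (by positivity)
    rw [div_le_iff₀ hc₀] at h2
    calc Y ≤ |Y| := le_abs_self _
      _ ≤ _ := h2
      _ = _ := mul_comm _ _
  obtain ⟨F, hF, hinj, hM⟩ := hc M (max y y₁)
  have hch : ∀ v : HeightOneSpectrum (𝓞 K), ∃ b : 𝓞 K, v ∈ F →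
      (v.asIdeal * J = Ideal.span {b} ∧ ∀ w : InfinitePlace K, Y ≤ w ((b : 𝓞 K) : K)) := by
    intro v
    by_cases hv : v ∈ F
    swap
    · exact ⟨0, fun h => absurd h hv⟩
    obtain ⟨hp, hcl, hlt⟩ := hF v hv
    have hvJ : v.asIdeal * J ∈ nonZeroDivisors (Ideal (𝓞 K)) :=
      mul_mem (mem_nonZeroDivisors_of_ne_zero v.ne_bot) hJ
    have h1 : ClassGroup.mk0 ⟨v.asIdeal * J, hvJ⟩ = 1 := by
      have h2 : (⟨v.asIdeal * J, hvJ⟩ : nonZeroDivisors (Ideal (𝓞 K))) =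
          ⟨v.asIdeal, mem_nonZeroDivisors_of_ne_zero v.ne_bot⟩ * ⟨J, hJ⟩ := rfl
      rw [h2, map_mul, hJc]
      rw [show ClassGroup.mk0 ⟨v.asIdeal, mem_nonZeroDivisors_of_ne_zero v.ne_bot⟩ = cls v from rfl,
        hcl, mul_inv_cancel]
    rw [ClassGroup.mk0_eq_one_iff hvJ] at h1
    obtain ⟨b, hb⟩ := h1.principal
    rw [Ideal.submodule_span_eq] at hb
    have hb0 : b ≠ 0 := by
      intro h0
      rw [h0, Ideal.span_singleton_zero] at hb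
      exact nonZeroDivisors.ne_zero hvJ hb
    obtain ⟨u, hu⟩ := hbal b hb0
    refine ⟨(u : 𝓞 K) * b, fun _ => ⟨?_, ?_⟩⟩
    · rw [hb]
      exact (Ideal.span_singleton_mul_left_unit u.isUnit b).symm
    · intro w
      refine le_trans ?_ (hu w)
      have h3 : |((Algebra.norm ℚ (b : K) : ℚ) : ℝ)| = (nm v * Ideal.absNorm J : ℕ) := by
        have h4 : Ideal.absNorm (v.asIdeal * J) = nm v * Ideal.absNorm J := by
          rw [map_mul]; rfl
        rw [← h4, hb, Ideal.absNorm_span_singleton]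
        rw [show Algebra.norm ℚ (b : K) = ((Algebra.norm ℤ b : ℤ) : ℚ) from
          (Algebra.coe_norm_int b).symm]
        simp [Nat.cast_natAbs]
      have h5 : (nm v : ℝ) ≤ |((Algebra.norm ℚ (b : K) : ℚ) : ℝ)| := by
        rw [h3]
        have h6 : Ideal.absNorm J ≠ 0 := by rwa [Ne, Ideal.absNorm_eq_zero_iff]
        have h7 : nm v ≤ nm v * Ideal.absNorm J := Nat.le_mul_of_pos_right _ (Nat.pos_of_ne_zero h6)
        exact_mod_cast h7
      have h8 := hy₁ (nm v) (lt_of_le_of_lt (le_max_right _ _) hlt)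
      refine h8.trans ?_
      apply mul_le_mul_of_nonneg_left _ hc₀.le
      exact Real.rpow_le_rpow (by positivity) h5 (by positivity)
  choose β hβ using hch
  exact ⟨F, β, fun v hv => ⟨(hF v hv).1, lt_of_le_of_lt (le_max_left _ _) (hF v hv).2.2,
    (hβ v hv).1, (hβ v hv).2⟩, hinj, hM⟩

end Pool.Agent.K3h28.NF
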