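import Mathlib

/-!
# The second moment argument, abstractly
-/

set_option autoImplicit false

namespace Pool.Agent.K3h28.NF

open Finset

theorem turan {α ι : Type*} [DecidableEq α] [DecidableEq ι] (Ω : Finset α) (P : Finset ι)
    (D C : ι → Finset α) (x : ι → ℝ) (η δ : ℝ) (A : Finset α)
    (hΩ : 0 < Ω.card) (hx : ∀ v ∈ P, 0 ≤ x v) (hη : 0 ≤ η) (hη1 : η ≤ 1)
    (hημ : 3 * η * (∑ v ∈ P, x v) ≤ 1) (hδ : 0 < δ) (hδμ : 16 ≤ δ ^ 2 * ∑ v ∈ P, x v)
    (hDΩ : ∀ v ∈ P, D v ⊆ Ω) (hD1 : ∀ v ∈ P, ((D v).card : ℝ) ≤ (1 + η) * x v * Ω.card)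
    (hD2 : ∀ v ∈ P, (1 - η) * x v * Ω.card ≤ (D v).card)
    (hD3 : ∀ v ∈ P, ∀ w ∈ P, v ≠ w → ((D v ∩ D w).card : ℝ) ≤ (1 + η) * (x v * x w) * Ω.card)
    (hA : A ⊆ Ω) (hAc : δ * Ω.card ≤ A.card)
    (hCΩ : ∀ v ∈ P, C v ⊆ Ω) (hC : ∀ v ∈ P, (C v).card = (A ∩ D v).card) :
    ∃ v ∈ P, ∃ w ∈ P, v ≠ w ∧
      (∑ v ∈ P, x v) / (P.card : ℝ) ^ 2 * Ω.card ≤ (C v ∩ C w).card := by
  classical
  set μ : ℝ := ∑ v ∈ P, x v with hμ
  set k := P.card with hk
  set V : ℝ := (Ω.card : ℝ) with hV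
  have hV0 : 0 < V := by rw [hV]; exact_mod_cast hΩ
  have hμ0 : 0 < μ := by
    by_contra h
    push Not at h
    have : δ ^ 2 * μ ≤ 0 := mul_nonpos_of_nonneg_of_nonpos (by positivity) h
    linarith
  have hk0 : 0 < k := by
    rw [hk, Finset.card_pos]
    by_contra h
    rw [Finset.not_nonempty_iff_eq_empty] at h
    rw [hμ, h, Finset.sum_empty] at hμ0
    exact lt_irrefl _ hμ0
  have hkr : (0 : ℝ) < k := by exact_mod_cast hk0
  -- sums of indicators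
  have hind : ∀ S : Finset α, S ⊆ Ω → ∑ n ∈ Ω, (if n ∈ S then (1 : ℝ) else 0) = S.card := by
    intro S hS
    rw [← Finset.sum_filter, Finset.sum_const, nsmul_eq_mul, mul_one, Finset.filter_mem_eq_inter,
      Finset.inter_eq_right.2 hS]
  set ω : α → ℝ := fun n => ∑ v ∈ P, (if n ∈ D v then (1 : ℝ) else 0) with hω
  have hω0 : ∀ n, 0 ≤ ω n := fun n => Finset.sum_nonneg (fun _ _ => by split_ifs <;> norm_num)
  -- first moment
  have hm1 : (1 - η) * μ * V ≤ ∑ n ∈ Ω, ω n := by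
    rw [hω, Finset.sum_comm, hμ, Finset.mul_sum, Finset.sum_mul]
    apply Finset.sum_le_sum
    intro v hv
    rw [hind _ (hDΩ v hv)]
    exact hD2 v hv
  have hm1' : ∑ n ∈ Ω, ω n ≤ (1 + η) * μ * V := by
    rw [hω, Finset.sum_comm, hμ, Finset.mul_sum, Finset.sum_mul]
    apply Finset.sum_le_sum
    intro v hv
    rw [hind _ (hDΩ v hv)]
    exact hD1 v hv
  -- second moment
  have hm2 : ∑ n ∈ Ω, ω n ^ 2 ≤ (1 + η) * μ ^ 2 * V + (1 + η) * μ * V := by
    have e1 : ∀ n, ω n ^ 2 = ∑ v ∈ P, ∑ w ∈ P, (if n ∈ D v ∩ D w then (1 : ℝ) else 0) := by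
      intro n
      rw [hω, sq, Finset.sum_mul_sum]
      apply Finset.sum_congr rfl
      intro p _
      apply Finset.sum_congr rfl
      intro q _
      by_cases h1 : n ∈ D p <;> by_cases h2 : n ∈ D q <;> simp [h1, h2]
    simp only [e1]
    rw [Finset.sum_comm]
    have e2 : ∀ v ∈ P, ∑ n ∈ Ω, ∑ w ∈ P, (if n ∈ D v ∩ D w then (1 : ℝ) else 0) ≤
        (1 + η) * x v * μ * V + (1 + η) * x v * V := by
      intro v hv
      rw [Finset.sum_comm]
      have e3 : ∀ w ∈ P, ∑ n ∈ Ω, (if n ∈ D v ∩ D w then (1 : ℝ) else 0) ≤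
          (1 + η) * x v * V * x w + (if w = v then (1 + η) * x v * V else 0) := by
        intro w hw
        rw [hind _ (Finset.inter_subset_left.trans (hDΩ v hv))]
        by_cases hwv : w = v
        · rw [if_pos hwv, hwv, Finset.inter_self]
          have h1 := hD1 v hv
          have h2 : 0 ≤ (1 + η) * x v * V * x v := by
            have := hx v hv
            positivity
          linarith
        · rw [if_neg hwv, add_zero]
          have h1 := hD3 v hv w hw (fun h => hwv h.symm)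
          calc _ ≤ (1 + η) * (x v * x w) * V := h1
            _ = _ := by ring
      refine (Finset.sum_le_sum e3).trans ?_
      rw [Finset.sum_add_distrib, Finset.sum_ite_eq' P v, if_pos hv, ← Finset.mul_sum, ← hμ]
      apply le_of_eq
      ring
    refine (Finset.sum_le_sum e2).trans ?_
    rw [Finset.sum_add_distrib]
    simp only [← Finset.sum_mul, ← Finset.mul_sum, ← hμ]
    apply le_of_eq
    ring
  -- variance
  have hVar : ∑ n ∈ Ω, (ω n - μ) ^ 2 ≤ 3 * μ * V := by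
    have e1 : ∑ n ∈ Ω, (ω n - μ) ^ 2 = ∑ n ∈ Ω, ω n ^ 2 - 2 * μ * ∑ n ∈ Ω, ω n + μ ^ 2 * V := by
      rw [Finset.mul_sum, ← Finset.sum_sub_distrib]
      have : μ ^ 2 * V = ∑ _n ∈ Ω, μ ^ 2 := by simp [hV, mul_comm]
      rw [this, ← Finset.sum_add_distrib]
      apply Finset.sum_congr rfl
      intro n _
      ring
    rw [e1]
    have h1 : 2 * μ * ((1 - η) * μ * V) ≤ 2 * μ * ∑ n ∈ Ω, ω n :=
      mul_le_mul_of_nonneg_left hm1 (by positivity)
    have h2 : 3 * η * μ * (μ * V) ≤ 1 * (μ * V) := mul_le_mul_of_nonneg_right hημ (by positivity)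
    have h3 : η * (μ * V) ≤ 1 * (μ * V) := mul_le_mul_of_nonneg_right hη1 (by positivity)
    nlinarith
  have hAx : (A.card : ℝ) ≤ V := by
    rw [hV]
    exact_mod_cast Finset.card_le_card hA
  have hAD : ∀ v, (((A ∩ D v).card : ℕ) : ℝ) = ∑ n ∈ A, (if n ∈ D v then (1 : ℝ) else 0) := by
    intro v
    rw [← Finset.sum_filter, Finset.sum_const, nsmul_eq_mul, mul_one, Finset.filter_mem_eq_inter]
  -- the sum over A
  have hA1 : δ / 2 * μ * V ≤ ∑ n ∈ A, ω n := by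
    by_contra hcon
    push Not at hcon
    have h1 : ∑ n ∈ A, (μ - ω n) = A.card * μ - ∑ n ∈ A, ω n := by
      rw [Finset.sum_sub_distrib]; simp
    have h2 : δ / 2 * μ * V < ∑ n ∈ A, (μ - ω n) := by
      rw [h1]
      nlinarith
    have h3 : (∑ n ∈ A, (μ - ω n)) ^ 2 ≤ A.card * ∑ n ∈ A, (μ - ω n) ^ 2 := sq_sum_le_card_mul_sum_sq
    have h4 : ∑ n ∈ A, (μ - ω n) ^ 2 ≤ 3 * μ * V := by
      refine le_trans ?_ hVar
      calc ∑ n ∈ A, (μ - ω n) ^ 2 = ∑ n ∈ A, (ω n - μ) ^ 2 := by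
            apply Finset.sum_congr rfl; intro n _; ring
        _ ≤ _ := Finset.sum_le_sum_of_subset_of_nonneg hA (fun n _ _ => sq_nonneg _)
    have h5 : (δ / 2 * μ * V) ^ 2 < (∑ n ∈ A, (μ - ω n)) ^ 2 := by
      apply pow_lt_pow_left₀ h2 (by positivity) (by norm_num)
    have h6 : (A.card : ℝ) * ∑ n ∈ A, (μ - ω n) ^ 2 ≤ V * (3 * μ * V) := by
      apply mul_le_mul hAx h4 (Finset.sum_nonneg (fun n _ => sq_nonneg _)) hV0.le
    have h7 : (δ / 2 * μ * V) ^ 2 < V * (3 * μ * V) := h5.trans_le (h3.trans h6)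
    have h8 : (δ / 2 * μ * V) ^ 2 = (δ ^ 2 * μ) * (μ * V ^ 2) / 4 := by ring
    rw [h8] at h7
    have h9 : 0 < μ * V ^ 2 := by positivity
    nlinarith
  -- double counting
  set f : α → ℝ := fun m => ∑ v ∈ P, (if m ∈ C v then (1 : ℝ) else 0) with hf
  have hfsum : ∑ m ∈ Ω, f m = ∑ n ∈ A, ω n := by
    rw [hf, hω, Finset.sum_comm, Finset.sum_comm (s := A)]
    apply Finset.sum_congr rfl
    intro v hv
    rw [hind _ (hCΩ v hv), hC v hv, hAD]
  have hCS : (∑ m ∈ Ω, f m) ^ 2 ≤ V * ∑ m ∈ Ω, f m ^ 2 := sq_sum_le_card_mul_sum_sq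
  have hf2 : ∑ m ∈ Ω, f m ^ 2 = ∑ v ∈ P, ∑ w ∈ P, ((C v ∩ C w).card : ℝ) := by
    have e1 : ∀ m, f m ^ 2 = ∑ v ∈ P, ∑ w ∈ P, (if m ∈ C v ∩ C w then (1 : ℝ) else 0) := by
      intro m
      rw [hf, sq, Finset.sum_mul_sum]
      apply Finset.sum_congr rfl
      intro p _
      apply Finset.sum_congr rfl
      intro q _
      by_cases h1 : m ∈ C p <;> by_cases h2 : m ∈ C q <;> simp [h1, h2]
    simp only [e1]
    rw [Finset.sum_comm]
    apply Finset.sum_congr rfl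
    intro v hv
    rw [Finset.sum_comm]
    apply Finset.sum_congr rfl
    intro w _
    rw [hind _ (Finset.inter_subset_left.trans (hCΩ v hv))]
  have hdiag : ∑ v ∈ P, ((C v ∩ C v).card : ℝ) ≤ 2 * μ * V := by
    have h1 : ∑ v ∈ P, ((C v ∩ C v).card : ℝ) = ∑ n ∈ A, ω n := by
      rw [hω, Finset.sum_comm]
      apply Finset.sum_congr rfl
      intro v hv
      rw [Finset.inter_self, hC v hv, hAD]
    rw [h1]
    calc ∑ n ∈ A, ω n ≤ ∑ n ∈ Ω, ω n :=
          Finset.sum_le_sum_of_subset_of_nonneg hA (fun n _ _ => hω0 n)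
      _ ≤ (1 + η) * μ * V := hm1'
      _ ≤ 2 * μ * V := by
          apply mul_le_mul_of_nonneg_right _ hV0.le
          apply mul_le_mul_of_nonneg_right _ hμ0.le
          linarith
  -- conclusion
  by_contra hcon
  push Not at hcon
  have hoff : ∀ v ∈ P, ∀ w ∈ P, ((C v ∩ C w).card : ℝ) ≤
      (if w = v then ((C v ∩ C v).card : ℝ) else 0) + μ / k ^ 2 * V := by
    intro v hv w hw
    have h0 : (0 : ℝ) ≤ μ / k ^ 2 * V := by positivity
    by_cases hwv : w = v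
    · rw [if_pos hwv, hwv]
      linarith
    · rw [if_neg hwv, zero_add]
      exact (hcon v hv w hw (fun h => hwv h.symm)).le
  have hsum : ∑ v ∈ P, ∑ w ∈ P, ((C v ∩ C w).card : ℝ) ≤ 3 * μ * V := by
    calc ∑ v ∈ P, ∑ w ∈ P, ((C v ∩ C w).card : ℝ)
        ≤ ∑ v ∈ P, ∑ w ∈ P, ((if w = v then ((C v ∩ C v).card : ℝ) else 0) + μ / k ^ 2 * V) :=
          Finset.sum_le_sum (fun p hp => Finset.sum_le_sum (fun q hq => hoff p hp q hq))
      _ = ∑ v ∈ P, (((C v ∩ C v).card : ℝ) + k * (μ / k ^ 2 * V)) := by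
          apply Finset.sum_congr rfl
          intro v hv
          rw [Finset.sum_add_distrib, Finset.sum_ite_eq' P v, if_pos hv, Finset.sum_const,
            nsmul_eq_mul]
      _ = ∑ v ∈ P, ((C v ∩ C v).card : ℝ) + k * (k * (μ / k ^ 2 * V)) := by
          rw [Finset.sum_add_distrib, Finset.sum_const, nsmul_eq_mul]
      _ = ∑ v ∈ P, ((C v ∩ C v).card : ℝ) + μ * V := by
          congr 1
          field_simp
      _ ≤ _ := by linarith
  rw [hf2] at hCS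
  rw [hfsum] at hCS
  have h1 : (δ / 2 * μ * V) ^ 2 ≤ V * (3 * μ * V) := by
    calc (δ / 2 * μ * V) ^ 2 ≤ (∑ n ∈ A, ω n) ^ 2 := pow_le_pow_left₀ (by positivity) hA1 _
      _ ≤ _ := hCS
      _ ≤ _ := mul_le_mul_of_nonneg_left hsum hV0.le
  have h2 : (δ / 2 * μ * V) ^ 2 = (δ ^ 2 * μ) * (μ * V ^ 2) / 4 := by ring
  rw [h2] at h1
  have h3 : 0 < μ * V ^ 2 := by positivity
  nlinarith

end Pool.Agent.K3h28.NF
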