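import Mathlib
import Pool.Agent.K3h28.NF.Data
import Pool.Agent.K3h28.NF.Box
import Pool.Agent.K3h28.NF.TK

/-!
# Multiplicative cubes in dense sets of integers of a number field
-/

set_option autoImplicit false

namespace Pool.Agent.K3h28.NF

open NumberField IsDedekindDomain Finset Filter Topology
open Pool.Agent.H437R2.Man.Low (nm nm_ne_zero two_le_nm below below_data card_above summable_nm
  CC one_le_CC el_le el)

section

variable {K : Type} [Field K] [NumberField K]

open Classical in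
/-- The density of an ideal. -/
theorem density_ideal (I : Ideal (𝓞 K)) (hI : I ≠ ⊥) (η : ℝ) (hη : 0 < η) : ∃ X₀ : ℕ, ∀ X ≥ X₀,
    (Ideal.absNorm I : ℝ) * ((bx K X).filter (fun x => x ∈ I)).card ≤ (1 + η) * (bx K X).card ∧
    (1 - η) * (bx K X).card ≤ (Ideal.absNorm I : ℝ) * ((bx K X).filter (fun x => x ∈ I)).card := by
  obtain ⟨R, hR⟩ := pack I hI
  obtain ⟨X₁, hX₁⟩ := bx_growth K R η hη
  refine ⟨X₁ + R, fun X hX => ⟨?_, ?_⟩⟩
  · have h1 := (hR X).1
    have h2 := hX₁ X (by omega)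
    have h3 : ((Ideal.absNorm I : ℝ) * ((bx K X).filter (fun x => x ∈ I)).card) ≤
      (bx K (X + R)).card := by exact_mod_cast h1
    exact h3.trans h2
  · have h1 := (hR (X - R)).2
    have h2 := hX₁ (X - R) (by omega)
    rw [show X - R + R = X by omega] at h1 h2
    have h3 : ((bx K (X - R)).card : ℝ) ≤
      (Ideal.absNorm I : ℝ) * ((bx K X).filter (fun x => x ∈ I)).card := by exact_mod_cast h1
    refine le_trans ?_ h3
    have h4 : (0 : ℝ) ≤ ((bx K (X - R)).card : ℝ) := by positivity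
    have h5 : (0 : ℝ) ≤ ((bx K X).card : ℝ) := by positivity
    by_cases hη1 : η ≤ 1
    · calc (1 - η) * ((bx K X).card : ℝ) ≤ (1 - η) * ((1 + η) * (bx K (X - R)).card) :=
            mul_le_mul_of_nonneg_left h2 (by linarith)
        _ = (1 - η ^ 2) * (bx K (X - R)).card := by ring
        _ ≤ 1 * (bx K (X - R)).card := by
            apply mul_le_mul_of_nonneg_right _ h4
            nlinarith
        _ = _ := one_mul _
    · push Not at hη1
      have h6 : (1 - η) * ((bx K X).card : ℝ) ≤ 0 := by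
        apply mul_nonpos_of_nonpos_of_nonneg _ h5
        linarith
      linarith

/-- prime data -/
def Good (J : Ideal (𝓞 K)) (y : ℕ) (v : HeightOneSpectrum (𝓞 K)) (b : 𝓞 K) : Prop :=
  (nm v).Prime ∧ y < nm v ∧ v.asIdeal * J = Ideal.span {b}

theorem Good.ne_zero {J : Ideal (𝓞 K)} (hJ : J ≠ ⊥) {y : ℕ} {v : HeightOneSpectrum (𝓞 K)} {b : 𝓞 K}
    (h : Good J y v b) : b ≠ 0 := by
  intro h0
  have h1 := h.2.2
  rw [h0, Ideal.span_singleton_zero, Ideal.mul_eq_bot] at h1
  rcases h1 with h1 | h1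
  · exact v.ne_bot h1
  · exact hJ h1

theorem Good.mono {J : Ideal (𝓞 K)} {y y' : ℕ} (hy : y' ≤ y) {v : HeightOneSpectrum (𝓞 K)} {b : 𝓞 K}
    (h : Good J y v b) : Good J y' v b := ⟨h.1, lt_of_le_of_lt hy h.2.1, h.2.2⟩

end

open Classical in
/-- One step. -/
theorem one_step (K : Type) [Field K] [NumberField K] : ∃ (J : Ideal (𝓞 K)) (j : 𝓞 K),
    J ≠ ⊥ ∧ j ≠ 0 ∧ j ∈ J ∧ ∀ (δ : ℝ), 0 < δ → ∀ (y : ℕ),
      ∃ (F : Finset (HeightOneSpectrum (𝓞 K))) (β : HeightOneSpectrum (𝓞 K) → 𝓞 K) (δ' : ℝ) (X₀ : ℕ),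
        0 < δ' ∧ (∀ v ∈ F, Good J y v (β v)) ∧
        Set.InjOn nm (F : Set (HeightOneSpectrum (𝓞 K))) ∧
        ∀ X ≥ X₀, ∀ A : Finset (𝓞 K), A ⊆ bx K X → δ * (bx K X).card ≤ A.card →
          ∃ v ∈ F, ∃ w ∈ F, v ≠ w ∧ δ' * (bx K X).card ≤
            ((bx K X).filter (fun m => (∃ n ∈ A, j * n = β v * m) ∧ (∃ n ∈ A, j * n = β w * m))).card := by
  obtain ⟨J, j, hJ, hj, hjJ, hdata⟩ := good_data K
  refine ⟨J, j, hJ, hj, hjJ, ?_⟩
  intro δ hδ y
  obtain ⟨C, hC0, hC⟩ := crd_le K
  -- a bound for the conjugates of `j`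
  set W : ℝ := ∑ w : InfinitePlace K, w (j : K) with hW
  have hWj : ∀ w : InfinitePlace K, w (j : K) ≤ W := fun w =>
    Finset.single_le_sum (f := fun w : InfinitePlace K => w (j : K)) (fun _ _ => apply_nonneg _ _)
      (mem_univ w)
  have hjK : (j : K) ≠ 0 := by exact_mod_cast hj
  have hW0 : 0 < W := by
    obtain ⟨w⟩ := (inferInstance : Nonempty (InfinitePlace K))
    exact lt_of_lt_of_le (AbsoluteValue.pos w.1 hjK) (hWj w)
  have hCC : (0 : ℝ) < CC K := by linarith [one_le_CC (K := K)]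
  obtain ⟨F, β, hF, hinj, hM⟩ := hdata (16 / δ ^ 2) (max y (Ideal.absNorm (Ideal.span {j})))
    (C * W * CC K)
  set μ : ℝ := ∑ v ∈ F, 1 / (nm v : ℝ) with hμ
  have hμδ : 16 ≤ δ ^ 2 * μ := by
    rw [div_le_iff₀ (by positivity)] at hM
    linarith
  have hμ0 : 0 < μ := lt_of_lt_of_le (by positivity) hM
  have hF0 : 0 < F.card := by
    rw [Finset.card_pos]
    by_contra h
    rw [Finset.not_nonempty_iff_eq_empty] at h
    rw [hμ, h, Finset.sum_empty] at hμ0
    exact lt_irrefl _ hμ0
  have hgood : ∀ v ∈ F, Good J y v (β v) := fun v hv =>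
    ⟨(hF v hv).1, lt_of_le_of_lt (le_max_left _ _) (hF v hv).2.1, (hF v hv).2.2.1⟩
  have hβ0 : ∀ v ∈ F, β v ≠ 0 := fun v hv => (hgood v hv).ne_zero hJ
  -- `j` is not divisible by the primes in `F`
  have hjv : ∀ v ∈ F, j ∉ v.asIdeal := by
    intro v hv hjv
    have h1 : Ideal.absNorm (Ideal.span {j}) < nm v := lt_of_le_of_lt (le_max_right _ _) (hF v hv).2.1
    have h2 : Ideal.absNorm v.asIdeal ∣ Ideal.absNorm (Ideal.span {j}) :=
      Ideal.absNorm_dvd_absNorm_of_le (by rwa [Ideal.span_singleton_le_iff_mem])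
    have h3 : Ideal.absNorm (Ideal.span {j}) ≠ 0 := by
      rw [Ne, Ideal.absNorm_eq_zero_iff, Ideal.span_singleton_eq_bot]
      exact hj
    have h4 := Nat.le_of_dvd (Nat.pos_of_ne_zero h3) h2
    exact absurd h1 (not_lt.2 h4)
  -- thresholds
  set η : ℝ := 1 / (1 + 3 * μ) with hη
  have hη0 : 0 < η := by positivity
  have hη1 : η ≤ 1 := by
    rw [hη, div_le_one (by positivity)]
    linarith
  have hημ : 3 * η * μ ≤ 1 := by
    have h1 : 3 * η * μ = 3 * μ / (1 + 3 * μ) := by rw [hη]; ring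
    rw [h1, div_le_one (by positivity)]
    linarith
  have hv0 : ∀ v : HeightOneSpectrum (𝓞 K), v.asIdeal ≠ ⊥ := fun v => v.ne_bot
  choose T1 hT1 using fun v : HeightOneSpectrum (𝓞 K) => density_ideal v.asIdeal (hv0 v) η hη0
  choose T2 hT2 using fun p : HeightOneSpectrum (𝓞 K) × HeightOneSpectrum (𝓞 K) =>
    density_ideal (p.1.asIdeal * p.2.asIdeal) (by
      rw [Ne, Ideal.mul_eq_bot, not_or]
      exact ⟨hv0 _, hv0 _⟩) η hη0
  refine ⟨F, β, μ / (F.card : ℝ) ^ 2, max (F.sup T1) ((F ×ˢ F).sup T2), by positivity, hgood, hinj, ?_⟩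
  intro X hX A hA hAc
  have hX1 : ∀ v ∈ F, T1 v ≤ X := fun v hv =>
    (Finset.le_sup hv).trans ((le_max_left _ _).trans hX)
  have hX2 : ∀ v ∈ F, ∀ w ∈ F, T2 (v, w) ≤ X := fun v hv w hw =>
    (Finset.le_sup (f := T2) (Finset.mem_product.2 ⟨hv, hw⟩)).trans ((le_max_right _ _).trans hX)
  set D : HeightOneSpectrum (𝓞 K) → Finset (𝓞 K) := fun v => (bx K X).filter (fun x => x ∈ v.asIdeal)
    with hD
  set Cc : HeightOneSpectrum (𝓞 K) → Finset (𝓞 K) := fun v =>
    (bx K X).filter (fun m => ∃ n ∈ A, j * n = β v * m) with hCc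
  -- the quotient stays in the box
  have hstay : ∀ v ∈ F, ∀ n ∈ bx K X, ∀ m : 𝓞 K, j * n = β v * m → m ∈ bx K X := by
    intro v hv n hn m hm
    rw [mem_bx]
    intro i
    have h1 : ∀ w : InfinitePlace K, w (m : K) ≤ X / C := by
      intro w
      have h2 : w (j : K) * w (n : K) = w ((β v : 𝓞 K) : K) * w (m : K) := by
        have h3 : (j : K) * (n : K) = ((β v : 𝓞 K) : K) * (m : K) := by
          have h4 := congrArg (fun z : 𝓞 K => (z : K)) hm
          simpa using h4
        calc w (j : K) * w (n : K) = w ((j : K) * (n : K)) := (map_mul w _ _).symm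
          _ = w (((β v : 𝓞 K) : K) * (m : K)) := by rw [h3]
          _ = _ := map_mul w _ _
      have h4 := (hF v hv).2.2.2 w
      have h5 : w (n : K) ≤ CC K * X := by
        have h6 := el_le w (crd n) X (by positivity) (fun i => by
          have := (mem_bx.1 hn) i
          exact_mod_cast this)
        rwa [el_crd] at h6
      have h7 : w (j : K) * w (n : K) ≤ W * (CC K * X) :=
        mul_le_mul (hWj w) h5 (apply_nonneg _ _) hW0.le
      have h8 : C * W * CC K * w (m : K) ≤ W * (CC K * X) := by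
        calc C * W * CC K * w (m : K) ≤ w ((β v : 𝓞 K) : K) * w (m : K) :=
              mul_le_mul_of_nonneg_right h4 (apply_nonneg _ _)
          _ ≤ _ := by rw [← h2]; exact h7
      rw [le_div_iff₀ hC0]
      have h9 : 0 < W * CC K := by positivity
      have h10 : (W * CC K) * (w (m : K) * C) ≤ (W * CC K) * X := by
        calc (W * CC K) * (w (m : K) * C) = C * W * CC K * w (m : K) := by ring
          _ ≤ W * (CC K * X) := h8
          _ = _ := by ring
      exact le_of_mul_le_mul_left h10 h9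
    have h2 := hC m (X / C) h1 i
    rw [mul_div_cancel₀ _ hC0.ne'] at h2
    exact_mod_cast h2
  have hCcard : ∀ v ∈ F, (Cc v).card = (A ∩ D v).card := by
    intro v hv
    symm
    have hex : ∀ n ∈ A ∩ D v, ∃ m : 𝓞 K, j * n = β v * m := by
      intro n hn
      rw [Finset.mem_inter, hD, Finset.mem_filter] at hn
      have h1 : j * n ∈ v.asIdeal * J := by
        rw [mul_comm j n]
        exact Ideal.mul_mem_mul hn.2.2 hjJ
      rw [(hgood v hv).2.2, Ideal.mem_span_singleton] at h1
      exact h1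
    choose! q hq using hex
    refine Finset.card_bij (fun n _ => q n) ?_ ?_ ?_
    · intro n hn
      have h1 := hq n hn
      rw [Finset.mem_inter] at hn
      rw [hCc, Finset.mem_filter]
      exact ⟨hstay v hv n (hA hn.1) _ h1, n, hn.1, h1⟩
    · intro n hn n' hn' h
      have h1 := hq n hn
      have h2 := hq n' hn'
      rw [h, ← h2] at h1
      exact mul_left_cancel₀ hj h1
    · intro m hm
      rw [hCc, Finset.mem_filter] at hm
      obtain ⟨-, n, hn, hnm⟩ := hm
      have hnv : n ∈ v.asIdeal := by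
        have h1 : j * n ∈ v.asIdeal * J := by
          rw [(hgood v hv).2.2, Ideal.mem_span_singleton, hnm]
          exact dvd_mul_right _ _
        have hle : v.asIdeal * J ≤ v.asIdeal := Ideal.mul_le_left
        have h2 : j * n ∈ v.asIdeal := hle h1
        rcases v.isPrime.mem_or_mem h2 with h3 | h3
        · exact absurd h3 (hjv v hv)
        · exact h3
      have hn2 : n ∈ A ∩ D v := by
        rw [Finset.mem_inter, hD, Finset.mem_filter]
        exact ⟨hn, hA hn, hnv⟩
      refine ⟨n, hn2, ?_⟩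
      have h4 := hq n hn2
      rw [hnm] at h4
      exact (mul_left_cancel₀ (hβ0 v hv) h4).symm
  have hΩ : 0 < (bx K X).card := by
    rw [card_bx]; positivity
  have hnm : ∀ v : HeightOneSpectrum (𝓞 K), (0 : ℝ) < nm v := fun v => by exact_mod_cast Nat.pos_of_ne_zero (nm_ne_zero v)
  obtain ⟨v, hv, w, hw, hvw, hfin⟩ := turan (bx K X) F D Cc
    (fun v : HeightOneSpectrum (𝓞 K) => 1 / (nm v : ℝ)) η δ A hΩ
    (fun v _ => by positivity) hη0.le hη1 hημ hδ hμδ (fun v _ => Finset.filter_subset _ _)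
    (by
      intro v hv
      have h1 := (hT1 v X (hX1 v hv)).1
      rw [show (Ideal.absNorm v.asIdeal : ℝ) = nm v from rfl] at h1
      have h2 : (1 + η) * (1 / (nm v : ℝ)) * (bx K X).card = ((1 + η) * (bx K X).card) / nm v := by
        ring
      rw [h2, le_div_iff₀ (hnm v), mul_comm]
      exact h1)
    (by
      intro v hv
      have h1 := (hT1 v X (hX1 v hv)).2
      rw [show (Ideal.absNorm v.asIdeal : ℝ) = nm v from rfl] at h1
      have h2 : (1 - η) * (1 / (nm v : ℝ)) * (bx K X).card = ((1 - η) * (bx K X).card) / nm v := by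
        ring
      rw [h2, div_le_iff₀ (hnm v), mul_comm]
      rw [mul_comm] at h1
      linarith)
    (by
      intro v hv w hw hvw
      have h1 := (hT2 (v, w) X (hX2 v hv w hw)).1
      simp only at h1
      have hsub : D v ∩ D w = (bx K X).filter (fun x => x ∈ v.asIdeal * w.asIdeal) := by
        ext x
        rw [Finset.mem_inter, hD, Finset.mem_filter, Finset.mem_filter, Finset.mem_filter]
        have hcop : IsCoprime v.asIdeal w.asIdeal := by
          rw [Ideal.isCoprime_iff_sup_eq]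
          exact (v.isPrime.isMaximal v.ne_bot).coprime_of_ne (w.isPrime.isMaximal w.ne_bot)
            (fun h => hvw (HeightOneSpectrum.ext h))
        rw [← Ideal.inf_eq_mul_of_isCoprime hcop, Ideal.mem_inf]
        tauto
      rw [hsub]
      have h2 : (Ideal.absNorm (v.asIdeal * w.asIdeal) : ℝ) = nm v * nm w := by
        rw [map_mul]
        push_cast
        rfl
      rw [h2] at h1
      have h3 : (1 + η) * (1 / (nm v : ℝ) * (1 / (nm w : ℝ))) * (bx K X).card =
          ((1 + η) * (bx K X).card) / (nm v * nm w) := by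
        have := (hnm v).ne'
        have := (hnm w).ne'
        field_simp
      have hpos : (0 : ℝ) < nm v * nm w := mul_pos (hnm v) (hnm w)
      rw [h3, le_div_iff₀ hpos, mul_comm]
      exact h1)
    hA hAc (fun v _ => Finset.filter_subset _ _) hCcard
  refine ⟨v, hv, w, hw, hvw, ?_⟩
  refine hfin.trans (le_of_eq ?_)
  congr 2
  ext m
  rw [Finset.mem_inter, hCc, Finset.mem_filter, Finset.mem_filter, Finset.mem_filter]
  tauto

end Pool.Agent.K3h28.NF
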