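import Mathlib
import Pool.Agent.K3h28.NF.Cubes

/-!
# Multiplicative cubes in dense sets of integers of a number field, continued
-/

set_option autoImplicit false

namespace Pool.Agent.K3h28.NF

open NumberField IsDedekindDomain Finset Filter Topology
open Pool.Agent.H437R2.Man.Low (nm nm_ne_zero two_le_nm below below_data card_above summable_nm
  CC one_le_CC el_le el)

/-- injectivity is preserved when small values are added in front -/
theorem inj_cons {r : ℕ} (p q : ℕ) (p' q' : Fin r → ℕ) (B : ℕ) (hpq : p ≠ q) (hp : p ≤ B)
    (hq : q ≤ B) (hp' : ∀ i, B < p' i) (hq' : ∀ i, B < q' i)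
    (hinj : Function.Injective (Sum.elim p' q')) :
    Function.Injective (Sum.elim (Fin.cons p p' : Fin (r + 1) → ℕ) (Fin.cons q q' : Fin (r + 1) → ℕ)) := by
  intro i j hij
  rcases i with i | i <;> rcases j with j | j <;> simp only [Sum.elim_inl, Sum.elim_inr] at hij
  · refine congrArg Sum.inl ?_
    induction i using Fin.cases with
    | zero =>
      induction j using Fin.cases with
      | zero => rfl
      | succ j =>
        simp only [Fin.cons_zero, Fin.cons_succ] at hij
        have := hp' j; omega
    | succ i =>
      induction j using Fin.cases with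
      | zero =>
        simp only [Fin.cons_zero, Fin.cons_succ] at hij
        have := hp' i; omega
      | succ j =>
        simp only [Fin.cons_succ] at hij
        have := hinj (a₁ := Sum.inl i) (a₂ := Sum.inl j) hij
        rw [Sum.inl.inj this]
  · exfalso
    induction i using Fin.cases with
    | zero =>
      induction j using Fin.cases with
      | zero => simp only [Fin.cons_zero] at hij; exact hpq hij
      | succ j =>
        simp only [Fin.cons_zero, Fin.cons_succ] at hij
        have := hq' j; omega
    | succ i =>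
      induction j using Fin.cases with
      | zero =>
        simp only [Fin.cons_zero, Fin.cons_succ] at hij
        have := hp' i; omega
      | succ j =>
        simp only [Fin.cons_succ] at hij
        have := hinj (a₁ := Sum.inl i) (a₂ := Sum.inr j) hij
        exact absurd this (by simp)
  · exfalso
    induction i using Fin.cases with
    | zero =>
      induction j using Fin.cases with
      | zero => simp only [Fin.cons_zero] at hij; exact hpq hij.symm
      | succ j =>
        simp only [Fin.cons_zero, Fin.cons_succ] at hij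
        have := hp' j; omega
    | succ i =>
      induction j using Fin.cases with
      | zero =>
        simp only [Fin.cons_zero, Fin.cons_succ] at hij
        have := hq' i; omega
      | succ j =>
        simp only [Fin.cons_succ] at hij
        have := hinj (a₁ := Sum.inr i) (a₂ := Sum.inl j) hij
        exact absurd this (by simp)
  · refine congrArg Sum.inr ?_
    induction i using Fin.cases with
    | zero =>
      induction j using Fin.cases with
      | zero => rfl
      | succ j =>
        simp only [Fin.cons_zero, Fin.cons_succ] at hij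
        have := hq' j; omega
    | succ i =>
      induction j using Fin.cases with
      | zero =>
        simp only [Fin.cons_zero, Fin.cons_succ] at hij
        have := hq' i; omega
      | succ j =>
        simp only [Fin.cons_succ] at hij
        have := hinj (a₁ := Sum.inr i) (a₂ := Sum.inr j) hij
        rw [Sum.inr.inj this]

/-- **Multiplicative cubes in dense sets of integers of a number field.** -/
theorem dense_cube (K : Type) [Field K] [NumberField K] : ∃ (J : Ideal (𝓞 K)) (j : 𝓞 K),
    J ≠ ⊥ ∧ j ≠ 0 ∧ j ∈ J ∧ ∀ (r : ℕ) (δ : ℝ), 0 < δ → ∀ (y : ℕ), ∃ X₀ : ℕ, ∀ X ≥ X₀,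
      ∀ A : Finset (𝓞 K), A ⊆ bx K X → δ * (bx K X).card ≤ A.card →
        ∃ (a : 𝓞 K) (v w : Fin r → HeightOneSpectrum (𝓞 K)) (b c : Fin r → 𝓞 K), a ≠ 0 ∧
          (∀ i, Good J y (v i) (b i)) ∧ (∀ i, Good J y (w i) (c i)) ∧
          Function.Injective (Sum.elim (fun i => nm (v i)) (fun i => nm (w i))) ∧
          ∀ S : Finset (Fin r), ∃ n ∈ A, j ^ r * n = a * ∏ i, (if i ∈ S then c i else b i) := by
  classical
  obtain ⟨J, j, hJ, hj, hjJ, hstep⟩ := one_step K
  refine ⟨J, j, hJ, hj, hjJ, ?_⟩
  intro r
  induction r with
  | zero =>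
    intro δ hδ y
    obtain ⟨X₀, hX₀⟩ := exists_nat_ge (1 / δ)
    refine ⟨X₀ + 1, fun X hX A hA hcard => ?_⟩
    have h1 : (1 : ℝ) < A.card := by
      refine lt_of_lt_of_le ?_ hcard
      have h2 : (X : ℝ) < (bx K X).card := by
        rw [card_bx]
        push_cast
        have h3 : (1 : ℝ) ≤ 2 * X + 1 := by
          have : (0 : ℝ) ≤ X := by positivity
          linarith
        calc (X : ℝ) < 2 * X + 1 := by
              have : (0 : ℝ) ≤ X := by positivity
              linarith
          _ ≤ _ := le_self_pow₀ h3 (Module.finrank_pos (R := ℚ) (M := K)).ne'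
      have h4 : 1 / δ ≤ X := hX₀.trans (by exact_mod_cast (by omega : X₀ ≤ X))
      rw [div_le_iff₀ hδ] at h4
      nlinarith
    have h2 : 1 < A.card := by exact_mod_cast h1
    obtain ⟨a, ha, b, hb, hab⟩ := Finset.one_lt_card.1 h2
    have hex : ∃ a ∈ A, a ≠ 0 := by
      by_cases h0 : a = 0
      · refine ⟨b, hb, ?_⟩
        rintro rfl
        exact hab h0
      · exact ⟨a, ha, h0⟩
    obtain ⟨a, ha, ha0⟩ := hex
    refine ⟨a, Fin.elim0, Fin.elim0, Fin.elim0, Fin.elim0, ha0, fun i => i.elim0, fun i => i.elim0,
      ?_, ?_⟩
    · intro i; rcases i with i | i <;> exact i.elim0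
    · intro S
      exact ⟨a, ha, by simp⟩
  | succ r ih =>
    intro δ hδ y
    obtain ⟨F, β, δ', X₁, hδ', hF, hinjF, hst⟩ := hstep δ hδ y
    obtain ⟨X₂, hX₂⟩ := ih δ' hδ' (F.sup nm + y)
    refine ⟨max X₁ X₂, fun X hX A hA hcard => ?_⟩
    obtain ⟨v, hv, w, hw, hvw, hB⟩ := hst X (le_trans (le_max_left _ _) hX) A hA hcard
    obtain ⟨a, v', w', b', c', ha, hv', hw', hinj, hcube⟩ :=
      hX₂ X (le_trans (le_max_right _ _) hX) _ (Finset.filter_subset _ _) hB
    have hle : ∀ v ∈ F, nm v ≤ F.sup nm + y := fun v hv =>
      (Finset.le_sup (f := nm) hv).trans (Nat.le_add_right _ _)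
    refine ⟨a, Fin.cons v v', Fin.cons w w', Fin.cons (β v) b', Fin.cons (β w) c', ha, ?_, ?_, ?_, ?_⟩
    · intro i
      refine Fin.cases (hF v hv) (fun i => ?_) i
      exact (hv' i).mono (Nat.le_add_left _ _)
    · intro i
      refine Fin.cases (hF w hw) (fun i => ?_) i
      exact (hw' i).mono (Nat.le_add_left _ _)
    · have h1 := inj_cons (nm v) (nm w) (fun i => nm (v' i)) (fun i => nm (w' i)) (F.sup nm + y)
        (fun h => hvw (hinjF hv hw h)) (hle v hv) (hle w hw) (fun i => (hv' i).2.1)
        (fun i => (hw' i).2.1) hinj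
      convert h1 using 2
      · funext i
        refine Fin.cases rfl (fun i => rfl) i
      · funext i
        refine Fin.cases rfl (fun i => rfl) i
    · intro S
      obtain ⟨m, hm, hm2⟩ := hcube (univ.filter (fun i : Fin r => i.succ ∈ S))
      rw [Finset.mem_filter] at hm
      have h2 : ∏ i : Fin r, (if i.succ ∈ S then c' i else b' i) =
          ∏ i : Fin r, (if i ∈ univ.filter (fun i : Fin r => i.succ ∈ S) then c' i else b' i) := by
        apply Finset.prod_congr rfl
        intro i _
        simp
      rw [Fin.prod_univ_succ]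
      simp only [Fin.cons_zero, Fin.cons_succ]
      rw [h2]
      by_cases h0 : (0 : Fin (r + 1)) ∈ S
      · rw [if_pos h0]
        obtain ⟨n, hn, hnm⟩ := hm.2.2
        refine ⟨n, hn, ?_⟩
        calc j ^ (r + 1) * n = j ^ r * (j * n) := by ring
          _ = β w * (j ^ r * m) := by rw [hnm]; ring
          _ = _ := by rw [hm2]; ring
      · rw [if_neg h0]
        obtain ⟨n, hn, hnm⟩ := hm.2.1
        refine ⟨n, hn, ?_⟩
        calc j ^ (r + 1) * n = j ^ r * (j * n) := by ring
          _ = β v * (j ^ r * m) := by rw [hnm]; ring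
          _ = _ := by rw [hm2]; ring

end Pool.Agent.K3h28.NF
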