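import Mathlib
import Pool.Agent.K3h28.NF.Cubes

/-!
# Multiplicative independence of the conjugates of elements with large prime divisors
-/

set_option autoImplicit false

namespace Pool.Agent.K3h28.NF

open NumberField IsDedekindDomain Finset
open Pool.Agent.H437R2.Man.Low (nm nm_ne_zero)

/-- the ring of all algebraic integers -/
abbrev ZB : Subalgebra ℤ ℂ := integralClosure ℤ ℂ

section

variable {K : Type} [Field K] [NumberField K]

/-- an embedding of a number field on the level of integers -/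
noncomputable def hat (σ : K →+* ℂ) : 𝓞 K →+* ZB where
  toFun x := ⟨σ (x : K), by
    have h := RingOfIntegers.isIntegral_coe x
    exact h.map (σ.toIntAlgHom)⟩
  map_one' := by ext; simp
  map_mul' x y := by ext; simp
  map_zero' := by ext; simp
  map_add' x y := by ext; simp

theorem hat_coe (σ : K →+* ℂ) (x : 𝓞 K) : ((hat σ x : ZB) : ℂ) = σ (x : K) := rfl

theorem hat_injective (σ : K →+* ℂ) : Function.Injective (hat σ) := by
  intro x y h
  have h1 := congrArg (fun z : ZB => (z : ℂ)) h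
  simp only [hat_coe] at h1
  exact RingOfIntegers.ext (σ.injective h1)

/-- Primes of the ring of all algebraic integers above a prime of `K`. -/
theorem exists_above (σ : K →+* ℂ) (v : HeightOneSpectrum (𝓞 K)) :
    ∃ Q : Ideal ZB, Q.IsPrime ∧ Q.comap (hat σ) = v.asIdeal := by
  let : Algebra (𝓞 K) ZB := (hat σ).toAlgebra
  have hint : Algebra.IsIntegral (𝓞 K) ZB := by
    have h1 : Algebra.IsIntegral ℤ ZB := inferInstance
    exact Algebra.IsIntegral.tower_top ℤ
  have hker : RingHom.ker (algebraMap (𝓞 K) ZB) ≤ v.asIdeal := by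
    have h1 : RingHom.ker (algebraMap (𝓞 K) ZB) = ⊥ :=
      (RingHom.injective_iff_ker_eq_bot _).1 (hat_injective σ)
    rw [h1]
    exact bot_le
  have hvp := v.isPrime
  exact Ideal.exists_ideal_over_prime_of_isIntegral_of_isDomain v.asIdeal hker

/-- Two coprime integers are not both in a prime ideal. -/
theorem not_both {R : Type*} [CommRing R] (Q : Ideal R) (hQ : Q.IsPrime) (a b : ℤ)
    (hab : IsCoprime a b) (ha : (a : R) ∈ Q) (hb : (b : R) ∈ Q) : False := by
  obtain ⟨u, w, h⟩ := hab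
  apply hQ.ne_top
  rw [Ideal.eq_top_iff_one]
  have h1 : (1 : R) = (u : R) * a + (w : R) * b := by
    have := congrArg (fun z : ℤ => (z : R)) h
    push_cast at this
    exact this.symm
  rw [h1]
  exact Q.add_mem (Q.mul_mem_left _ ha) (Q.mul_mem_left _ hb)

/-- Residues modulo a prime of degree one are represented by integers. -/
theorem exists_int (v : HeightOneSpectrum (𝓞 K)) (hv : (nm v).Prime) (x : 𝓞 K) :
    ∃ k : ℤ, x - (k : 𝓞 K) ∈ v.asIdeal := by
  have : Fact (nm v).Prime := ⟨hv⟩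
  have hcard : Nat.card (𝓞 K ⧸ v.asIdeal) = nm v := by
    show _ = Ideal.absNorm v.asIdeal
    rw [Ideal.absNorm_apply, Submodule.cardQuot_apply]
  have hne : Ideal.Quotient.mk v.asIdeal 1 ≠ 0 := by
    rw [Ne, Ideal.Quotient.eq_zero_iff_mem, ← Ideal.eq_top_iff_one]
    exact v.isPrime.ne_top
  have h1 := mem_zmultiples_of_prime_card (p := nm v) hcard hne (g' := Ideal.Quotient.mk v.asIdeal x)
  rw [AddSubgroup.mem_zmultiples_iff] at h1
  obtain ⟨k, hk⟩ := h1
  refine ⟨k, ?_⟩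
  rw [← Ideal.Quotient.eq_zero_iff_mem, map_sub, ← hk, map_one]
  simp

/-- the norm is in the ideal -/
theorem nm_mem (v : HeightOneSpectrum (𝓞 K)) : ((nm v : ℕ) : 𝓞 K) ∈ v.asIdeal :=
  Ideal.absNorm_mem v.asIdeal

/-- Different embeddings are separated by large primes of degree one. -/
theorem exists_sep (K : Type) [Field K] [NumberField K] : ∃ y₀ : ℕ, ∀ σ τ : K →+* ℂ,
    ∀ (Q : Ideal ZB), Q.IsPrime → ∀ v : HeightOneSpectrum (𝓞 K), (nm v).Prime → y₀ < nm v →
      Q.comap (hat σ) = v.asIdeal → Q.comap (hat τ) = v.asIdeal → σ = τ := by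
  classical
  have hch : ∀ p : (K →+* ℂ) × (K →+* ℂ), ∃ (α : 𝓞 K) (N : ℤ), N ≠ 0 ∧ (p.1 ≠ p.2 →
      (hat p.1 α - hat p.2 α) ∣ (N : ZB)) := by
    intro p
    by_cases hp : p.1 = p.2
    · exact ⟨0, 1, one_ne_zero, fun h => absurd hp h⟩
    · have h1 : ∃ α : 𝓞 K, p.1 (α : K) ≠ p.2 (α : K) := by
        by_contra hcon
        push Not at hcon
        apply hp
        apply IsFractionRing.ringHom_ext (A := 𝓞 K)
        intro x
        exact hcon x
      obtain ⟨α, hα⟩ := h1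
      have h2 : hat p.1 α - hat p.2 α ≠ 0 := by
        intro h0
        apply hα
        have := congrArg (fun z : ZB => (z : ℂ)) (sub_eq_zero.1 h0)
        simpa only [hat_coe] using this
      have h3 : IsAlgebraic ℤ (hat p.1 α - hat p.2 α) :=
        (Algebra.IsIntegral.isIntegral (R := ℤ) (hat p.1 α - hat p.2 α)).isAlgebraic
      obtain ⟨N, hN, hdvd⟩ := h3.exists_nonzero_dvd (mem_nonZeroDivisors_of_ne_zero h2)
      refine ⟨α, N, hN, fun _ => ?_⟩
      simpa using hdvd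
  choose α N hN0 hN using hch
  refine ⟨∑ p, (N p).natAbs, ?_⟩
  intro σ τ Q hQ v hv hlt hσ hτ
  by_contra hne
  obtain ⟨k, hk⟩ := exists_int v hv (α (σ, τ))
  have h1 : hat σ (α (σ, τ)) - (k : ZB) ∈ Q := by
    rw [← hσ, Ideal.mem_comap, map_sub, map_intCast] at hk
    exact hk
  have h2 : hat τ (α (σ, τ)) - (k : ZB) ∈ Q := by
    rw [← hτ, Ideal.mem_comap, map_sub, map_intCast] at hk
    exact hk
  have h3 : hat σ (α (σ, τ)) - hat τ (α (σ, τ)) ∈ Q := by
    have := Q.sub_mem h1 h2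
    rwa [sub_sub_sub_cancel_right] at this
  have h4 : ((N (σ, τ) : ℤ) : ZB) ∈ Q := Q.mem_of_dvd (hN (σ, τ) hne) h3
  have h5 : (((nm v : ℕ) : ℤ) : ZB) ∈ Q := by
    have h6 := nm_mem v
    rw [← hσ, Ideal.mem_comap, map_natCast] at h6
    exact_mod_cast h6
  refine not_both Q hQ _ _ ?_ h4 h5
  rw [Int.isCoprime_iff_gcd_eq_one, Int.gcd_comm]
  have h7 : Nat.Coprime (nm v) (N (σ, τ)).natAbs := by
    rw [Nat.Prime.coprime_iff_not_dvd hv]
    intro hdvd
    have h8 := Nat.le_of_dvd (Int.natAbs_pos.2 (hN0 _)) hdvd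
    have h9 : (N (σ, τ)).natAbs ≤ ∑ p, (N p).natAbs :=
      Finset.single_le_sum (f := fun p => (N p).natAbs) (fun _ _ => Nat.zero_le _) (mem_univ _)
    omega
  rw [Int.gcd_eq_natAbs]
  simpa using h7

/-- **Multiplicative independence.** -/
theorem mult_indep (J : Ideal (𝓞 K)) (hJ : J ≠ ⊥) : ∃ y₀ : ℕ, ∀ (ι : Type) [Fintype ι]
    (v : ι → HeightOneSpectrum (𝓞 K)) (g : ι → 𝓞 K), (∀ i, Good J y₀ (v i) (g i)) →
    Function.Injective (fun i => nm (v i)) → ∀ N : ι × (K →+* ℂ) → ℤ,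
      ∏ p : ι × (K →+* ℂ), (p.2 ((g p.1 : 𝓞 K) : K)) ^ (N p) = 1 → N = 0 := by
  classical
  obtain ⟨y₁, hy₁⟩ := exists_sep K
  refine ⟨max y₁ (Ideal.absNorm J), ?_⟩
  intro ι _ v g hg hinj N hprod
  have hg0 : ∀ p : ι × (K →+* ℂ), p.2 ((g p.1 : 𝓞 K) : K) ≠ 0 := by
    intro p
    rw [Ne, map_eq_zero]
    have := (hg p.1).ne_zero hJ
    exact_mod_cast this
  have hN0 : Ideal.absNorm J ≠ 0 := by rwa [Ne, Ideal.absNorm_eq_zero_iff]
  -- natural exponents
  have h1 : ∏ p : ι × (K →+* ℂ), (p.2 ((g p.1 : 𝓞 K) : K)) ^ (N p).toNat =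
      ∏ p : ι × (K →+* ℂ), (p.2 ((g p.1 : 𝓞 K) : K)) ^ (-N p).toNat := by
    have h2 : ∏ p : ι × (K →+* ℂ), (p.2 ((g p.1 : 𝓞 K) : K)) ^ (N p).toNat =
        (∏ p : ι × (K →+* ℂ), (p.2 ((g p.1 : 𝓞 K) : K)) ^ (-N p).toNat) *
          ∏ p : ι × (K →+* ℂ), (p.2 ((g p.1 : 𝓞 K) : K)) ^ (N p) := by
      rw [← Finset.prod_mul_distrib]
      apply Finset.prod_congr rfl
      intro p _
      rw [← zpow_natCast, ← zpow_natCast, ← zpow_add₀ (hg0 p)]
      congr 1
      omega
    rw [h2, hprod, mul_one]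
  have h2 : ∏ p : ι × (K →+* ℂ), (hat p.2 (g p.1)) ^ (N p).toNat =
      ∏ p : ι × (K →+* ℂ), (hat p.2 (g p.1)) ^ (-N p).toNat := by
    apply Subtype.ext
    push_cast
    simpa only [hat_coe] using h1
  -- the key fact
  have key : ∀ (i₀ : ι) (σ₀ : K →+* ℂ), ∃ Q : Ideal ZB, Q.IsPrime ∧ hat σ₀ (g i₀) ∈ Q ∧
      ∀ p : ι × (K →+* ℂ), p ≠ (i₀, σ₀) → hat p.2 (g p.1) ∉ Q := by
    intro i₀ σ₀
    obtain ⟨Q, hQ, hQv⟩ := exists_above σ₀ (v i₀)
    have hpQ : (((nm (v i₀) : ℕ) : ℤ) : ZB) ∈ Q := by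
      have h6 := nm_mem (v i₀)
      rw [← hQv, Ideal.mem_comap, map_natCast] at h6
      exact_mod_cast h6
    have hmem : g i₀ ∈ (v i₀).asIdeal := by
      have h3 : g i₀ ∈ (v i₀).asIdeal * J := by
        rw [(hg i₀).2.2]
        exact Ideal.mem_span_singleton_self _
      exact (Ideal.mul_le_left : (v i₀).asIdeal * J ≤ (v i₀).asIdeal) h3
    refine ⟨Q, hQ, ?_, ?_⟩
    · rw [← hQv, Ideal.mem_comap] at hmem
      exact hmem
    · rintro ⟨i, σ⟩ hne hin
      set q := Q.comap (hat σ) with hq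
      have hqp : q.IsPrime := Ideal.comap_isPrime _ _
      have hgq : g i ∈ q := by rw [hq, Ideal.mem_comap]; exact hin
      have hpq : (((nm (v i₀) : ℕ) : ℤ) : 𝓞 K) ∈ q := by
        rw [hq, Ideal.mem_comap, map_intCast]
        exact hpQ
      have hle : (v i).asIdeal * J ≤ q := by
        rw [(hg i).2.2, Ideal.span_singleton_le_iff_mem]
        exact hgq
      rcases (Ideal.IsPrime.mul_le hqp).1 hle with h3 | h3
      · have hnq : (((nm (v i) : ℕ) : ℤ) : 𝓞 K) ∈ q := by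
          have := h3 (nm_mem (v i))
          exact_mod_cast this
        have hnm : nm (v i) = nm (v i₀) := by
          by_contra hcon
          refine not_both q hqp _ _ ?_ hnq hpq
          rw [Nat.isCoprime_iff_coprime]
          exact (Nat.coprime_primes (hg i).1 (hg i₀).1).2 hcon
        have hii : i = i₀ := hinj hnm
        subst hii
        have hmax : (v i).asIdeal.IsMaximal := (v i).isPrime.isMaximal (v i).ne_bot
        have hqe : q = (v i).asIdeal := (hmax.eq_of_le hqp.ne_top h3).symm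
        have hσ : σ = σ₀ := hy₁ σ σ₀ Q hQ (v i) (hg i).1
          (lt_of_le_of_lt (le_max_left _ _) (hg i).2.1) hqe hQv
        exact hne (by rw [hσ])
      · have hJq : ((Ideal.absNorm J : ℤ) : 𝓞 K) ∈ q := by
          have := h3 (Ideal.absNorm_mem J)
          exact_mod_cast this
        refine not_both q hqp _ _ ?_ hpq hJq
        rw [Nat.isCoprime_iff_coprime, Nat.Prime.coprime_iff_not_dvd (hg i₀).1]
        intro hdvd
        have h4 := Nat.le_of_dvd (Nat.pos_of_ne_zero hN0) hdvd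
        have h5 := lt_of_le_of_lt (le_max_right _ _) (hg i₀).2.1
        omega
  have aux : ∀ (e f : ι × (K →+* ℂ) → ℕ),
      ∏ p : ι × (K →+* ℂ), (hat p.2 (g p.1)) ^ e p = ∏ p : ι × (K →+* ℂ), (hat p.2 (g p.1)) ^ f p →
      ∀ p, 0 < e p → f p = 0 → False := by
    intro e f hef p₀ he hf
    obtain ⟨Q, hQ, hin, hout⟩ := key p₀.1 p₀.2
    have h3 : ∏ p : ι × (K →+* ℂ), (hat p.2 (g p.1)) ^ e p ∈ Q := by
      apply Ideal.mem_of_dvd Q (Finset.dvd_prod_of_mem _ (mem_univ p₀))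
      exact Ideal.pow_mem_of_mem Q hin _ he
    rw [hef, hQ.prod_mem_iff] at h3
    obtain ⟨p, -, hp⟩ := h3
    by_cases hpp : p = p₀
    · rw [hpp, hf, pow_zero] at hp
      exact hQ.ne_top ((Ideal.eq_top_iff_one _).2 hp)
    · exact hout p hpp (hQ.mem_of_pow_mem _ hp)
  funext p
  rw [Pi.zero_apply]
  rcases lt_trichotomy (N p) 0 with h | h | h
  · exact absurd (aux _ _ h2.symm p (by omega) (by omega)) not_false
  · exact h
  · exact absurd (aux _ _ h2 p (by omega) (by omega)) not_false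

/-- **Linear independence of the logarithms.** -/
theorem log_indep (J : Ideal (𝓞 K)) (hJ : J ≠ ⊥) : ∃ y₀ : ℕ, ∀ (r : ℕ)
    (v w : Fin r → HeightOneSpectrum (𝓞 K)) (b c : Fin r → 𝓞 K),
    (∀ i, Good J y₀ (v i) (b i)) → (∀ i, Good J y₀ (w i) (c i)) →
    Function.Injective (Sum.elim (fun i => nm (v i)) (fun i => nm (w i))) →
    ∀ lam : Fin r → (K →+* ℂ) → ℂ,
      (∀ i σ, Complex.exp (lam i σ) = σ ((c i : 𝓞 K) : K) / σ ((b i : 𝓞 K) : K)) →
      LinearIndependent ℚ (fun p : Fin r × (K →+* ℂ) => lam p.1 p.2) := by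
  classical
  obtain ⟨y₀, hy₀⟩ := mult_indep J hJ
  refine ⟨y₀, ?_⟩
  intro r v w b c hb hc hinj lam hlam
  rw [← LinearIndependent.iff_fractionRing ℤ ℚ, Fintype.linearIndependent_iff]
  intro n hn p₀
  -- the combined family
  have h0 := hy₀ (Fin r ⊕ Fin r) (Sum.elim v w) (Sum.elim b c) (by
    rintro (i | i)
    · exact hb i
    · exact hc i) (by
    have : (fun i => nm (Sum.elim v w i)) = Sum.elim (fun i => nm (v i)) (fun i => nm (w i)) := by
      funext i
      rcases i with i | i <;> rfl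
    rw [this]
    exact hinj) (fun p => Sum.elim (fun i => -n (i, p.2)) (fun i => n (i, p.2)) p.1) (by
    rw [Fintype.prod_prod_type, Fintype.prod_sum_type]
    simp only [Sum.elim_inl, Sum.elim_inr]
    rw [← Finset.prod_mul_distrib]
    have h1 : Complex.exp (∑ p : Fin r × (K →+* ℂ), n p • lam p.1 p.2) = 1 := by
      rw [hn, Complex.exp_zero]
    rw [Complex.exp_sum, Fintype.prod_prod_type] at h1
    rw [← h1]
    apply Finset.prod_congr rfl
    intro i _
    rw [← Finset.prod_mul_distrib]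
    apply Finset.prod_congr rfl
    intro σ _
    rw [zsmul_eq_mul, Complex.exp_int_mul, hlam, div_zpow, zpow_neg, div_eq_mul_inv, mul_comm])
  have h1 := congrFun h0 (Sum.inr p₀.1, p₀.2)
  simpa using h1

end

end Pool.Agent.K3h28.NF
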