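import Mathlib
import Pool.Agent.H297R2.Tuples

/-!
# Polynomial relations and changes of the determinations of the logarithms
-/

set_option autoImplicit false

namespace Pool.Agent.K3h28.NF

open Finset
open Pool.Agent.H297R2 (NoRel)

theorem totalDegree_bind {κ σ τ : Type*} [CommRing κ] (f : σ → MvPolynomial τ κ)
    (hf : ∀ i, (f i).totalDegree ≤ 1) (P : MvPolynomial σ κ) :
    (MvPolynomial.bind₁ f P).totalDegree ≤ P.totalDegree := by
  classical
  rw [MvPolynomial.bind₁, MvPolynomial.aeval_def, MvPolynomial.eval₂_eq]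
  apply MvPolynomial.totalDegree_finsetSum_le
  intro s hs
  refine (MvPolynomial.totalDegree_mul _ _).trans ?_
  have h1 : (algebraMap κ (MvPolynomial τ κ) (MvPolynomial.coeff s P)).totalDegree = 0 :=
    MvPolynomial.totalDegree_C _
  rw [h1, zero_add]
  refine (MvPolynomial.totalDegree_finsetProd _ _).trans ?_
  refine le_trans ?_ (MvPolynomial.le_totalDegree hs)
  rw [Finsupp.sum]
  apply Finset.sum_le_sum
  intro i _
  refine (MvPolynomial.totalDegree_pow _ _).trans ?_
  calc s i * (f i).totalDegree ≤ s i * 1 := Nat.mul_le_mul_left _ (hf i)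
    _ = s i := mul_one _

/-- A linear change of variables. -/
theorem noRel_shift {κ C σ M : Type*} [Field κ] [Field C] [Algebra κ C] (D : ℕ) (t : σ → C)
    (i₀ : σ) (v : M → C) (k : M → ℤ) (h : NoRel κ D (Sum.elim t v)) :
    NoRel κ D (Sum.elim t (fun c => v c + (k c : C) * t i₀)) := by
  classical
  set φ : (ℤ → ℤ) → (σ ⊕ M) → MvPolynomial (σ ⊕ M) κ := fun s =>
    Sum.elim (fun i => MvPolynomial.X (Sum.inl i))
      (fun c => MvPolynomial.X (Sum.inr c) + MvPolynomial.C ((s (k c) : ℤ) : κ) *
        MvPolynomial.X (Sum.inl i₀)) with hφ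
  intro P hP hx
  have hdeg : ∀ s i, (φ s i).totalDegree ≤ 1 := by
    intro s i
    rcases i with i | c
    · simp only [hφ, Sum.elim_inl]
      exact (MvPolynomial.totalDegree_X _).le
    · simp only [hφ, Sum.elim_inr]
      refine (MvPolynomial.totalDegree_add _ _).trans (max_le ((MvPolynomial.totalDegree_X _).le) ?_)
      refine (MvPolynomial.totalDegree_mul _ _).trans ?_
      rw [MvPolynomial.totalDegree_C, zero_add]
      exact (MvPolynomial.totalDegree_X _).le
  have h1 : MvPolynomial.bind₁ (φ id) P = 0 := by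
    apply h
    · exact (totalDegree_bind _ (hdeg id) P).trans hP
    · rw [← hx, MvPolynomial.aeval_bind₁]
      congr 2
      funext i
      rcases i with i | c
      · simp [hφ]
      · simp [hφ]
  have h2 : MvPolynomial.bind₁ (φ (fun n => -n)) (MvPolynomial.bind₁ (φ id) P) = P := by
    rw [MvPolynomial.bind₁_bind₁]
    have h3 : (fun i => MvPolynomial.bind₁ (φ (fun n => -n)) (φ id i)) = MvPolynomial.X := by
      funext i
      rcases i with i | c
      · simp [hφ]
      · simp [hφ]
    rw [h3, MvPolynomial.bind₁_X_left]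
    rfl
  rw [← h2, h1, map_zero]

end Pool.Agent.K3h28.NF
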