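import Mathlib
import Pool.Agent.K3h28.NF.VHyp
import Pool.Agent.K3h28.NF.Cubes2
import Pool.Agent.K3h28.NF.Ind
import Pool.Agent.K3h28.NF.Shift

/-!
# Logarithms of all conjugates of almost all integers of a number field: one element
-/

set_option autoImplicit false

namespace Pool.Agent.K3h28.NF

open NumberField IsDedekindDomain Finset
open Pool.Agent.H437R2.Man.Low (nm nm_ne_zero)
open Pool.Agent.H297R2 (NoRel)
open Pool.Agent.H301R2.SSE (QB mem_QB)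

/-- Some logarithms of the conjugates of `x` satisfy, together with `t`, a relation. -/
def BadOne {K : Type} [Field K] [NumberField K] {τ : Type} (D : ℕ) (t : τ → ℂ) (x : 𝓞 K) : Prop :=
  ∃ lam : (K →+* ℂ) → ℂ, (∀ σ, Complex.exp (lam σ) = σ (x : K)) ∧
    ¬ NoRel QB D (Sum.elim t lam)

theorem isAlgebraic_emb {K : Type} [Field K] [NumberField K] (σ : K →+* ℂ) (x : K) :
    IsAlgebraic ℚ (σ x) := by
  have h : IsAlgebraic ℚ x := Algebra.IsAlgebraic.isAlgebraic x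
  exact IsAlgebraic.algHom (σ.toRatAlgHom) h

/-- Two determinations of the logarithms differ by a multiple of the period. -/
theorem exists_shift {M : Type*} (a b : M → ℂ) (h : ∀ c, Complex.exp (a c) = Complex.exp (b c)) :
    ∃ k : M → ℤ, ∀ c, a c = b c + (k c : ℂ) * (2 * Real.pi * Complex.I) := by
  have h1 : ∀ c, ∃ n : ℤ, a c = b c + n * (2 * Real.pi * Complex.I) := fun c =>
    Complex.exp_eq_exp_iff_exists_int.1 (h c)
  choose k hk using h1
  exact ⟨k, hk⟩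

theorem noRel_determination {τ M : Type*} (D : ℕ) (t : τ → ℂ) (i₀ : τ)
    (hi₀ : t i₀ = 2 * Real.pi * Complex.I) (a b : M → ℂ)
    (h : ∀ c, Complex.exp (a c) = Complex.exp (b c)) (hb : NoRel QB D (Sum.elim t b)) :
    NoRel QB D (Sum.elim t a) := by
  obtain ⟨k, hk⟩ := exists_shift a b h
  have h1 := noRel_shift D t i₀ b k hb
  have h2 : a = fun c => b c + (k c : ℂ) * t i₀ := by
    funext c
    rw [hk c, hi₀]
  rw [h2]
  exact h1

theorem density_one (K : Type) [Field K] [NumberField K] (τ : Type) [Fintype τ] (D : ℕ) (ε : ℝ)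
    (hε : 0 < ε) : ∃ X₀ : ℕ, ∀ X ≥ X₀, ∀ t : τ → ℂ, (∃ i₀, t i₀ = 2 * Real.pi * Complex.I) →
      NoRel QB D t → ∀ A : Finset (𝓞 K), A ⊆ bx K X → (∀ x ∈ A, BadOne D t x) →
      (A.card : ℝ) ≤ ε * (bx K X).card := by
  classical
  obtain ⟨J, j, hJ, hj, -, hcubes⟩ := dense_cube K
  obtain ⟨r, hr⟩ := cube_logs τ (K →+* ℂ) D
  obtain ⟨y₀, hy₀⟩ := log_indep (K := K) J hJ
  obtain ⟨X₀, hX₀⟩ := hcubes r ε hε y₀
  refine ⟨X₀, fun X hX t hti ht A hA hbad => ?_⟩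
  obtain ⟨i₀, hi₀⟩ := hti
  by_contra hcon
  push Not at hcon
  obtain ⟨a, v, w, b, c, ha, hv, hw, hinj, hcube⟩ := hX₀ X hX A hA hcon.le
  have hemb : ∀ (σ : K →+* ℂ) (x : 𝓞 K), x ≠ 0 → σ (x : K) ≠ 0 := by
    intro σ x hx
    rw [Ne, map_eq_zero]
    exact_mod_cast hx
  have hb0 : ∀ i, b i ≠ 0 := fun i => (hv i).ne_zero hJ
  have hc0 : ∀ i, c i ≠ 0 := fun i => (hw i).ne_zero hJ
  set lam : Fin r → (K →+* ℂ) → ℂ := fun i σ =>
    Complex.log (σ ((c i : 𝓞 K) : K) / σ ((b i : 𝓞 K) : K)) with hlam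
  have hlamexp : ∀ i σ, Complex.exp (lam i σ) = σ ((c i : 𝓞 K) : K) / σ ((b i : 𝓞 K) : K) := by
    intro i σ
    rw [hlam]
    exact Complex.exp_log (div_ne_zero (hemb σ _ (hc0 i)) (hemb σ _ (hb0 i)))
  set v₀ : (K →+* ℂ) → ℂ := fun σ =>
    Complex.log ((σ (a : K) * ∏ i, σ ((b i : 𝓞 K) : K)) / σ (j : K) ^ r) with hv₀
  have hv₀exp : ∀ σ, Complex.exp (v₀ σ) = (σ (a : K) * ∏ i, σ ((b i : 𝓞 K) : K)) / σ (j : K) ^ r := by
    intro σ
    rw [hv₀]
    apply Complex.exp_log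
    apply div_ne_zero
    · exact mul_ne_zero (hemb σ _ ha) (Finset.prod_ne_zero_iff.2 (fun i _ => hemb σ _ (hb0 i)))
    · exact pow_ne_zero _ (hemb σ _ hj)
  have hli := hy₀ r v w b c hv hw hinj lam hlamexp
  obtain ⟨S, hS⟩ := hr t ht v₀ lam (fun i σ => by
    rw [hlamexp, div_eq_mul_inv]
    exact (isAlgebraic_emb σ _).mul (isAlgebraic_emb σ _).inv) hli
  obtain ⟨n, hn, hnS⟩ := hcube S
  obtain ⟨mu, hmu, hmubad⟩ := hbad n hn
  apply hmubad
  apply noRel_determination D t i₀ hi₀ mu _ _ hS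
  intro σ
  rw [hmu, Complex.exp_add, hv₀exp, Complex.exp_sum]
  have h1 : σ (j : K) ^ r * σ (n : K) = σ (a : K) *
      ∏ i, (if i ∈ S then σ ((c i : 𝓞 K) : K) else σ ((b i : 𝓞 K) : K)) := by
    have h2 := congrArg (fun z : 𝓞 K => σ (z : K)) hnS
    simp only [map_mul, map_pow, map_prod] at h2
    rw [h2]
    congr 1
    apply Finset.prod_congr rfl
    intro i _
    split_ifs <;> rfl
  have hjr : σ (j : K) ^ r ≠ 0 := pow_ne_zero _ (hemb σ _ hj)
  have h3 : ∏ i, (if i ∈ S then σ ((c i : 𝓞 K) : K) else σ ((b i : 𝓞 K) : K)) =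
      (∏ i, σ ((b i : 𝓞 K) : K)) * ∏ i ∈ S, Complex.exp (lam i σ) := by
    rw [← Finset.prod_filter_mul_prod_filter_not univ (fun i => i ∈ S)
      (fun i => if i ∈ S then σ ((c i : 𝓞 K) : K) else σ ((b i : 𝓞 K) : K)),
      ← Finset.prod_filter_mul_prod_filter_not univ (fun i => i ∈ S)
      (fun i => σ ((b i : 𝓞 K) : K))]
    have e1 : univ.filter (fun i => i ∈ S) = S := by ext i; simp
    rw [e1]
    have e2 : ∏ i ∈ S, (if i ∈ S then σ ((c i : 𝓞 K) : K) else σ ((b i : 𝓞 K) : K)) =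
        (∏ i ∈ S, σ ((b i : 𝓞 K) : K)) * ∏ i ∈ S, Complex.exp (lam i σ) := by
      rw [← Finset.prod_mul_distrib]
      apply Finset.prod_congr rfl
      intro i hi
      rw [if_pos hi, hlamexp]
      rw [mul_div_cancel₀ _ (hemb σ _ (hb0 i))]
    have e3 : ∏ i ∈ univ.filter (fun i => i ∉ S),
        (if i ∈ S then σ ((c i : 𝓞 K) : K) else σ ((b i : 𝓞 K) : K)) =
        ∏ i ∈ univ.filter (fun i => i ∉ S), σ ((b i : 𝓞 K) : K) := by
      apply Finset.prod_congr rfl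
      intro i hi
      rw [Finset.mem_filter] at hi
      rw [if_neg hi.2]
    rw [e2, e3]
    ring
  rw [h3] at h1
  field_simp
  rw [mul_comm (σ (n : K)), h1]
  ring

end Pool.Agent.K3h28.NF
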