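import Mathlib
import Pool.Agent.K3h28.NF.Dens

/-!
# Logarithms of all conjugates of almost all integers of number fields: tuples
-/

set_option autoImplicit false

namespace Pool.Agent.K3h28.NF

open NumberField IsDedekindDomain Finset
open Pool.Agent.H297R2 (NoRel NoRel.reindex NoRel.reindex_iff)
open Pool.Agent.H301R2.SSE (QB mem_QB)

/-- Some logarithms of all the conjugates of the entries of `x` satisfy, together with `t`, a
relation. -/
def BadTup {k : ℕ} {K : Fin k → Type} [∀ i, Field (K i)] {τ : Type} (D : ℕ) (t : τ → ℂ)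
    (x : ∀ i, 𝓞 (K i)) : Prop :=
  ∃ lam : (Σ i, (K i →+* ℂ)) → ℂ, (∀ p, Complex.exp (lam p) = p.2 (x p.1 : K p.1)) ∧
    ¬ NoRel QB D (Sum.elim t lam)

/-- reindexing -/
def sigEquiv (τ : Type) {k : ℕ} (M : Fin (k + 1) → Type) :
    (τ ⊕ M 0) ⊕ (Σ i : Fin k, M i.succ) ≃ τ ⊕ (Σ i, M i) where
  toFun s := match s with
    | Sum.inl (Sum.inl i) => Sum.inl i
    | Sum.inl (Sum.inr m) => Sum.inr ⟨0, m⟩
    | Sum.inr ⟨i, m⟩ => Sum.inr ⟨i.succ, m⟩
  invFun s := match s with
    | Sum.inl i => Sum.inl (Sum.inl i)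
    | Sum.inr ⟨i, m⟩ => Fin.cases (motive := fun i => M i → (τ ⊕ M 0) ⊕ (Σ i : Fin k, M i.succ))
        (fun m => Sum.inl (Sum.inr m)) (fun i m => Sum.inr ⟨i, m⟩) i m
  left_inv s := by
    rcases s with (_ | _) | ⟨_, _⟩ <;> rfl
  right_inv s := by
    rcases s with i | ⟨i, m⟩
    · rfl
    · induction i using Fin.cases with
      | zero => rfl
      | succ i => rfl

theorem arith (ε A V N : ℝ) (hA : A ≤ ε / 2 * N) (hV : 0 ≤ V) :
    A * V + N * (ε / 2 * V) ≤ ε * (N * V) := by
  have := mul_le_mul_of_nonneg_right hA hV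
  linarith

theorem not_bad_of_no_log {k : ℕ} {K : Fin (k + 1) → Type} [∀ i, Field (K i)]
    {τ : Type} (D : ℕ) (t : τ → ℂ) (x : ∀ i, 𝓞 (K i))
    (h : ¬ ∃ lam : (K 0 →+* ℂ) → ℂ, ∀ σ, Complex.exp (lam σ) = σ (x 0 : K 0)) :
    ¬ BadTup D t x := by
  rintro ⟨lam, hlam, -⟩
  apply h
  exact ⟨fun σ => lam ⟨0, σ⟩, fun σ => hlam ⟨0, σ⟩⟩

open Classical in
/-- **Tuples.** -/
theorem density_tuples (k : ℕ) : ∀ (K : Fin k → Type) [∀ i, Field (K i)] [∀ i, NumberField (K i)]
    (τ : Type) [Fintype τ] (D : ℕ) (ε : ℝ), 0 < ε →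
    ∃ X₀ : ℕ, ∀ X ≥ X₀, ∀ t : τ → ℂ, (∃ i₀, t i₀ = 2 * Real.pi * Complex.I) → NoRel QB D t →
    (((Fintype.piFinset fun i => bx (K i) X).filter (fun x => BadTup D t x)).card : ℝ) ≤
      ε * ∏ i, ((bx (K i) X).card : ℝ) := by
  induction k with
  | zero =>
    intro K _ _ τ _ D ε hε
    refine ⟨0, fun X _ t _ ht => ?_⟩
    rw [Finset.filter_false_of_mem]
    · simp [hε.le]
    · intro x _
      rintro ⟨lam, -, hlam⟩
      apply hlam
      have : IsEmpty (Σ i : Fin 0, (K i →+* ℂ)) := ⟨fun p => p.1.elim0⟩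
      rw [← NoRel.reindex_iff (Equiv.sumEmpty τ (Σ i : Fin 0, (K i →+* ℂ))).symm]
      exact ht
  | succ k ih =>
    intro K _ _ τ _ D ε hε
    obtain ⟨X₁, hX₁⟩ := density_one (K 0) τ D (ε / 2) (by linarith)
    obtain ⟨X₂, hX₂⟩ := ih (fun i => K i.succ) (τ ⊕ (K 0 →+* ℂ)) D (ε / 2) (by linarith)
    refine ⟨max X₁ X₂, fun X hX t hti ht => ?_⟩
    obtain ⟨i₀, hi₀⟩ := hti
    set B := (Fintype.piFinset fun i => bx (K i) X).filter (fun x => BadTup D t x) with hB
    set A := (bx (K 0) X).filter (fun a => BadOne D t a) with hA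
    set V : ℝ := ∏ i : Fin k, ((bx (K i.succ) X).card : ℝ) with hV
    have hV0 : 0 ≤ V := Finset.prod_nonneg (fun _ _ => by positivity)
    have hAcard : (A.card : ℝ) ≤ ε / 2 * (bx (K 0) X).card :=
      hX₁ X (le_trans (le_max_left _ _) hX) t ⟨i₀, hi₀⟩ ht A (Finset.filter_subset _ _) (by
        intro n hn; rw [hA, Finset.mem_filter] at hn; exact hn.2)
    have hfib : B.card = ∑ a ∈ bx (K 0) X, (B.filter (fun x => x 0 = a)).card := by
      apply Finset.card_eq_sum_card_fiberwise
      intro n hn
      have hn' : n ∈ B := hn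
      rw [hB, Finset.mem_filter, Fintype.mem_piFinset] at hn'
      exact hn'.1 0
    have hle : ∀ a, (B.filter (fun x => x 0 = a)).card ≤
        ((Fintype.piFinset fun i : Fin k => bx (K i.succ) X).filter
          (fun m => BadTup D t (Fin.cons a m : ∀ i, 𝓞 (K i)))).card := by
      intro a
      apply Finset.card_le_card_of_injOn (fun x => Fin.tail x)
      · intro n hn
        have hn' : n ∈ B.filter (fun x => x 0 = a) := hn
        rw [Finset.mem_filter, hB, Finset.mem_filter, Fintype.mem_piFinset] at hn'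
        have hcons : (Fin.cons a (Fin.tail n) : ∀ i, 𝓞 (K i)) = n := by
          rw [← hn'.2]; exact Fin.cons_self_tail n
        show Fin.tail n ∈ _
        rw [Finset.mem_coe, Finset.mem_filter, Fintype.mem_piFinset]
        refine ⟨fun j => hn'.1.1 j.succ, ?_⟩
        rw [hcons]
        exact hn'.1.2
      · intro n hn m hm h
        have hn' : n ∈ B.filter (fun x => x 0 = a) := hn
        have hm' : m ∈ B.filter (fun x => x 0 = a) := hm
        rw [Finset.mem_filter] at hn' hm'
        rw [← Fin.cons_self_tail n, ← Fin.cons_self_tail m, hn'.2, hm'.2]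
        have : Fin.tail n = Fin.tail m := h
        rw [this]
    have hgood : ∀ a ∈ bx (K 0) X, a ∉ A →
        (((Fintype.piFinset fun i : Fin k => bx (K i.succ) X).filter
          (fun m => BadTup D t (Fin.cons a m : ∀ i, 𝓞 (K i)))).card : ℝ) ≤ ε / 2 * V := by
      intro a ha haA
      by_cases hlog : ∃ lam : (K 0 →+* ℂ) → ℂ, ∀ σ, Complex.exp (lam σ) = σ (a : K 0)
      swap
      · have hemp : ((Fintype.piFinset fun i : Fin k => bx (K i.succ) X).filter
            (fun m => BadTup D t (Fin.cons a m : ∀ i, 𝓞 (K i)))) = ∅ := by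
          rw [Finset.filter_eq_empty_iff]
          intro m _
          exact not_bad_of_no_log D t _ hlog
        rw [hemp, Finset.card_empty, Nat.cast_zero]
        exact mul_nonneg (by linarith) hV0
      · obtain ⟨mu, hmu⟩ := hlog
        have hta : NoRel QB D (Sum.elim t mu) := by
          by_contra hcon
          apply haA
          rw [hA, Finset.mem_filter]
          exact ⟨ha, mu, hmu, hcon⟩
        have h1 := hX₂ X (le_trans (le_max_right _ _) hX) (Sum.elim t mu) ⟨Sum.inl i₀, hi₀⟩ hta
        refine le_trans ?_ h1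
        apply Nat.cast_le.2
        apply Finset.card_le_card
        intro m hm
        rw [Finset.mem_filter] at hm ⊢
        refine ⟨hm.1, ?_⟩
        obtain ⟨lam, hlam, hbad⟩ := hm.2
        refine ⟨fun p => lam ⟨p.1.succ, p.2⟩, fun p => ?_, ?_⟩
        · have := hlam ⟨p.1.succ, p.2⟩
          exact this
        · intro hN
          apply hbad
          -- change the determination
          have h2 : NoRel QB D (Sum.elim t
              (fun p : Σ i, (K i →+* ℂ) => (Fin.cases (motive := fun i => (K i →+* ℂ) → ℂ) mu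
                (fun i σ => lam ⟨i.succ, σ⟩) p.1 p.2 : ℂ))) := by
            rw [← NoRel.reindex_iff (sigEquiv τ (fun i => (K i →+* ℂ)))]
            convert hN using 1
            funext s
            rcases s with (i | σ) | ⟨i, σ⟩ <;> rfl
          refine noRel_determination D t i₀ hi₀ _ _ ?_ h2
          rintro ⟨i, σ⟩
          induction i using Fin.cases with
          | zero =>
            show Complex.exp (lam ⟨0, σ⟩) = Complex.exp (mu σ)
            rw [hmu]
            exact hlam ⟨0, σ⟩
          | succ i => rfl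
    have htriv : ∀ a, (((Fintype.piFinset fun i : Fin k => bx (K i.succ) X).filter
          (fun m => BadTup D t (Fin.cons a m : ∀ i, 𝓞 (K i)))).card : ℝ) ≤ V := by
      intro a
      have h1 := Finset.card_filter_le (Fintype.piFinset fun i : Fin k => bx (K i.succ) X)
        (fun m => BadTup D t (Fin.cons a m : ∀ i, 𝓞 (K i)))
      rw [Fintype.card_piFinset] at h1
      rw [hV]
      exact_mod_cast h1
    have hAsub : A ⊆ bx (K 0) X := Finset.filter_subset _ _
    calc (B.card : ℝ) = ∑ a ∈ bx (K 0) X, ((B.filter (fun x => x 0 = a)).card : ℝ) := by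
          rw [hfib]; push_cast; rfl
      _ ≤ ∑ a ∈ bx (K 0) X, ((if a ∈ A then V else 0) + ε / 2 * V) := by
          apply Finset.sum_le_sum
          intro a ha
          have h1 : ((B.filter (fun x => x 0 = a)).card : ℝ) ≤
            (((Fintype.piFinset fun i : Fin k => bx (K i.succ) X).filter
              (fun m => BadTup D t (Fin.cons a m : ∀ i, 𝓞 (K i)))).card : ℝ) := by
            exact_mod_cast hle a
          by_cases haA : a ∈ A
          · rw [if_pos haA]
            have h2 := htriv a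
            have h3 : (0 : ℝ) ≤ ε / 2 * V := mul_nonneg (by linarith) hV0
            linarith
          · rw [if_neg haA, zero_add]
            exact h1.trans (hgood a ha haA)
      _ = (A.card : ℝ) * V + (bx (K 0) X).card * (ε / 2 * V) := by
          rw [Finset.sum_add_distrib, ← Finset.sum_filter, Finset.filter_mem_eq_inter,
            Finset.inter_eq_right.2 hAsub, Finset.sum_const, Finset.sum_const,
            nsmul_eq_mul, nsmul_eq_mul]
      _ ≤ ε * (((bx (K 0) X).card : ℝ) * V) := arith ε _ V _ hAcard hV0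
      _ = ε * ∏ i, ((bx (K i) X).card : ℝ) := by
          rw [Fin.prod_univ_succ]

end Pool.Agent.K3h28.NF
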