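import Mathlib
import Pool.Agent.K3h28.NF.Tup

/-!
# Logarithms of all conjugates of almost all integers of number fields: the canonical regions
-/

set_option autoImplicit false

namespace Pool.Agent.K3h28.NF

open NumberField IsDedekindDomain Finset
open Pool.Agent.H297R2 (NoRel NoRel.reindex NoRel.reindex_iff)
open Pool.Agent.H301R2.SSE (QB mem_QB)
open Pool.Agent.H437R2.Man.Low (CC one_le_CC el_le)

/-- Boxes and conjugates. -/
theorem region (K : Type) [Field K] [NumberField K] : ∃ C : ℝ, 1 ≤ C ∧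
    (∀ (X : ℝ) (x : 𝓞 K), (∀ σ : K →+* ℂ, ‖σ (x : K)‖ ≤ X) → ∀ N : ℕ, C * X ≤ N → x ∈ bx K N) ∧
    (∀ (X : ℝ) (x : 𝓞 K) (N : ℕ), x ∈ bx K N → C * N ≤ X → ∀ σ : K →+* ℂ, ‖σ (x : K)‖ ≤ X) := by
  obtain ⟨C, hC0, hC⟩ := crd_le K
  refine ⟨max C (CC K), (one_le_CC (K := K)).trans (le_max_right _ _), ?_, ?_⟩
  · intro X x hx N hN
    have hX0 : 0 ≤ X := by
      obtain ⟨σ⟩ := (inferInstance : Nonempty (K →+* ℂ))
      exact (norm_nonneg _).trans (hx σ)
    rw [mem_bx]
    intro i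
    have h1 := hC x X (fun w => by
      rw [← InfinitePlace.norm_embedding_eq]
      exact hx _) i
    have h2 : |(crd x i : ℝ)| ≤ N := by
      refine h1.trans (le_trans ?_ hN)
      exact mul_le_mul_of_nonneg_right (le_max_left _ _) hX0
    exact_mod_cast h2
  · intro X x N hx hN σ
    have h6 := el_le (InfinitePlace.mk σ) (crd x) N (by positivity) (fun i => by
      have := (mem_bx.1 hx) i
      exact_mod_cast this)
    rw [el_crd, InfinitePlace.apply] at h6
    refine h6.trans (le_trans ?_ hN)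
    exact mul_le_mul_of_nonneg_right (le_max_right _ _) (by positivity)

/-- The tuples of integers all of whose conjugates have absolute value at most `X`. -/
def reg {k : ℕ} (K : Fin k → Type) [∀ i, Field (K i)] (X : ℝ) : Set (∀ i, 𝓞 (K i)) :=
  {x | ∀ i, ∀ σ : K i →+* ℂ, ‖σ (x i : K i)‖ ≤ X}

theorem arith2 (ε r a b V W E : ℝ) (hr : 0 < r) (hε : 0 < ε) (h4 : a ≤ b) (h3 : b ≤ ε / r * V)
    (h6 : V ≤ r * W) (h5 : W ≤ E) : a ≤ ε * E := by
  calc a ≤ b := h4
    _ ≤ ε / r * V := h3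
    _ ≤ ε / r * (r * W) := mul_le_mul_of_nonneg_left h6 (by positivity)
    _ = ε * W := by field_simp
    _ ≤ ε * E := mul_le_mul_of_nonneg_left h5 hε.le

theorem main (k : ℕ) (K : Fin k → Type) [∀ i, Field (K i)] [∀ i, NumberField (K i)]
    (τ : Type) [Fintype τ] (D : ℕ) (ε : ℝ) (hε : 0 < ε) :
    ∃ X₀ : ℝ, ∀ X ≥ X₀, (reg K X).Finite ∧
      ∀ t : τ → ℂ, (∃ i₀, t i₀ = 2 * Real.pi * Complex.I) → NoRel QB D t →
        ({x | x ∈ reg K X ∧ BadTup D t x}.ncard : ℝ) ≤ ε * (reg K X).ncard := by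
  classical
  choose C hC1 hCup hClow using fun i => region (K i)
  set c : ℝ := 1 + ∑ i, C i with hc
  have hC0 : ∀ i, 0 ≤ C i := fun i => by linarith [hC1 i]
  have hc1 : 1 ≤ c := by
    have : 0 ≤ ∑ i, C i := Finset.sum_nonneg (fun i _ => hC0 i)
    linarith
  have hCc : ∀ i, C i ≤ c := by
    intro i
    have := Finset.single_le_sum (f := C) (fun i _ => hC0 i) (mem_univ i)
    linarith
  set R : ℝ := (2 * c + 3) * c with hR
  have hR0 : 0 < R := by positivity
  set s : ℕ := ∑ i, Module.finrank ℚ (K i) with hs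
  obtain ⟨X₁, hX₁⟩ := density_tuples k K τ D (ε / R ^ s) (by positivity)
  refine ⟨max X₁ 1, fun X hX => ?_⟩
  have hX1 : 1 ≤ X := (le_max_right _ _).trans hX
  have hX0 : 0 ≤ X := by linarith
  have hXX : (X₁ : ℝ) ≤ X := (le_max_left _ _).trans hX
  set N₁ := ⌈c * X⌉₊ with hN₁
  set N₂ := ⌊X / c⌋₊ with hN₂
  have h1 : c * X ≤ N₁ := Nat.le_ceil _
  have h1' : (N₁ : ℝ) < c * X + 1 := Nat.ceil_lt_add_one (by positivity)
  have h2 : (N₂ : ℝ) ≤ X / c := Nat.floor_le (by positivity)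
  have h2' : X / c < N₂ + 1 := Nat.lt_floor_add_one _
  have hN₁X : X₁ ≤ N₁ := by
    have h3 : (X₁ : ℝ) ≤ N₁ := by
      refine hXX.trans (le_trans ?_ h1)
      nlinarith
    exact_mod_cast h3
  have hsub : reg K X ⊆ ((Fintype.piFinset fun i => bx (K i) N₁ : Finset (∀ i, 𝓞 (K i))) : Set _) := by
    intro x hx
    rw [Finset.mem_coe, Fintype.mem_piFinset]
    intro i
    apply hCup i X (x i) (hx i)
    refine le_trans ?_ h1
    exact mul_le_mul_of_nonneg_right (hCc i) hX0
  have hsup : ((Fintype.piFinset fun i => bx (K i) N₂ : Finset (∀ i, 𝓞 (K i))) : Set _) ⊆ reg K X := by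
    intro x hx
    rw [Finset.mem_coe, Fintype.mem_piFinset] at hx
    intro i
    apply hClow i X (x i) N₂ (hx i)
    have h3 : c * N₂ ≤ X := by
      rw [le_div_iff₀ (by positivity)] at h2
      linarith
    refine le_trans ?_ h3
    exact mul_le_mul_of_nonneg_right (hCc i) (by positivity)
  have hfin : (reg K X).Finite := (Finset.finite_toSet _).subset hsub
  refine ⟨hfin, fun t hti ht => ?_⟩
  have h3 := hX₁ N₁ hN₁X t hti ht
  have h4 : ({x | x ∈ reg K X ∧ BadTup D t x}.ncard : ℝ) ≤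
      (((Fintype.piFinset fun i => bx (K i) N₁).filter (fun x => BadTup D t x)).card : ℝ) := by
    apply Nat.cast_le.2
    rw [← Set.ncard_coe_finset]
    apply Set.ncard_le_ncard _ (Finset.finite_toSet _)
    rintro x ⟨hx1, hx2⟩
    rw [Finset.mem_coe, Finset.mem_filter]
    exact ⟨hsub hx1, hx2⟩
  have h5 : (∏ i, ((bx (K i) N₂).card : ℝ)) ≤ (reg K X).ncard := by
    have h6 : (Fintype.piFinset fun i => bx (K i) N₂).card ≤ (reg K X).ncard := by
      rw [← Set.ncard_coe_finset]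
      exact Set.ncard_le_ncard hsup hfin
    rw [Fintype.card_piFinset] at h6
    exact_mod_cast h6
  have h6 : (∏ i, ((bx (K i) N₁).card : ℝ)) ≤ R ^ s * ∏ i, ((bx (K i) N₂).card : ℝ) := by
    rw [hs, ← Finset.prod_pow_eq_pow_sum, ← Finset.prod_mul_distrib]
    apply Finset.prod_le_prod
    · intro i _; positivity
    · intro i _
      rw [card_bx, card_bx]
      push_cast
      rw [← mul_pow]
      apply pow_le_pow_left₀ (by positivity)
      have h7 : X ≤ c * (N₂ + 1) := by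
        rw [div_lt_iff₀ (by positivity)] at h2'
        linarith
      have h8 : (0 : ℝ) ≤ N₂ := by positivity
      calc 2 * (N₁ : ℝ) + 1 ≤ 2 * (c * X + 1) + 1 := by linarith
        _ ≤ (2 * c + 3) * X := by nlinarith
        _ ≤ (2 * c + 3) * (c * (N₂ + 1)) := by
            apply mul_le_mul_of_nonneg_left h7 (by positivity)
        _ = R * (N₂ + 1) := by rw [hR]; ring
        _ ≤ R * (2 * N₂ + 1) := by
            apply mul_le_mul_of_nonneg_left _ hR0.le
            linarith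
  exact arith2 ε (R ^ s) _ _ _ _ _ (pow_pos hR0 s) hε h4 h3 h6 h5

end Pool.Agent.K3h28.NF
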